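import Pool.Agent.H408.ND.Gen

/-!
Products of conjugacy classes in abelian-by-nilpotent groups.
-/

set_option autoImplicit false

namespace Pool.Agent.H408.ND

open scoped commutatorElement

universe u v

section Ab

variable {G : Type u} [Group G]

/-- the elements `v` of `A` such that `(∏ h) v` is a product of `A`-conjugates of the `h i` -/
def TT (A : Subgroup G) {n : ℕ} (h : Fin n → G) (v : G) : Prop :=
  v ∈ A ∧ ∃ b : Fin n → G, (∀ i, b i ∈ A) ∧
    (List.ofFn fun i => b i * h i * (b i)⁻¹).prod = (List.ofFn h).prod * v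

theorem TT_one (A : Subgroup G) {n : ℕ} (h : Fin n → G) : TT A h 1 :=
  ⟨A.one_mem, fun _ => 1, fun _ => A.one_mem, by simp⟩

theorem TT_succ (A : Subgroup G) [hA : A.Normal] {n : ℕ} (h : Fin (n + 1) → G) (v : G) :
    TT A h v ↔ ∃ b ∈ A, ∃ v', TT A (fun i : Fin n => h i.succ) v' ∧
      v = (List.ofFn fun i : Fin n => h i.succ).prod⁻¹ * ((h 0)⁻¹ * b * h 0 * b⁻¹) *
        (List.ofFn fun i : Fin n => h i.succ).prod * v' := by
  set P := (List.ofFn fun i : Fin n => h i.succ).prod with hP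
  have conjA : ∀ (x : G) {y : G}, y ∈ A → x⁻¹ * y * x ∈ A := fun x y hy => by
    have := hA.conj_mem y hy x⁻¹
    rwa [inv_inv] at this
  constructor
  · rintro ⟨hv, b, hb, e⟩
    rw [List.ofFn_succ, List.ofFn_succ, List.prod_cons, List.prod_cons, ← hP] at e
    set Q := (List.ofFn fun i : Fin n => b i.succ * h i.succ * (b i.succ)⁻¹).prod with hQ
    have h1 : P⁻¹ * Q = P⁻¹ * ((h 0)⁻¹ * b 0 * h 0 * (b 0)⁻¹)⁻¹ * P * v := by
      have e2 : Q = (b 0 * h 0 * (b 0)⁻¹)⁻¹ * (h 0 * P * v) := by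
        rw [← e]; group
      rw [e2]
      group
    have h2 : P⁻¹ * Q ∈ A := by
      rw [h1]
      refine A.mul_mem (conjA P (A.inv_mem (A.mul_mem ?_ (A.inv_mem (hb 0))))) hv
      exact conjA (h 0) (hb 0)
    refine ⟨b 0, hb 0, P⁻¹ * Q, ⟨h2, fun i => b i.succ, fun i => hb i.succ, ?_⟩, ?_⟩
    · rw [← hQ, ← hP]; group
    · rw [h1]; group
  · rintro ⟨b₀, hb₀, v', ⟨hv', b, hb, e⟩, rfl⟩
    rw [← hP] at e
    refine ⟨A.mul_mem (conjA P (A.mul_mem (conjA (h 0) hb₀) (A.inv_mem hb₀))) hv',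
      Fin.cons b₀ b, ?_, ?_⟩
    · intro i
      refine Fin.cases ?_ (fun i => ?_) i
      · exact hb₀
      · exact hb i
    · rw [List.ofFn_succ, List.ofFn_succ, List.prod_cons, List.prod_cons, ← hP]
      simp only [Fin.cons_zero, Fin.cons_succ]
      rw [e]
      group

theorem TT_mul (A : Subgroup G) [hA : A.Normal] (hc : ∀ x ∈ A, ∀ y ∈ A, x * y = y * x) {n : ℕ} :
    ∀ (h : Fin n → G) {v w : G}, TT A h v → TT A h w → TT A h (v * w) := by
  induction n with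
  | zero =>
    rintro h v w ⟨hv, b, -, e⟩ hw
    simp only [List.ofFn_zero, List.prod_nil, one_mul] at e
    rw [← e, one_mul]
    exact hw
  | succ n ih =>
    intro h v w hv hw
    rw [TT_succ] at hv hw ⊢
    obtain ⟨b, hb, v', hv', rfl⟩ := hv
    obtain ⟨d, hd, w', hw', rfl⟩ := hw
    refine ⟨b * d, A.mul_mem hb hd, v' * w', ih _ hv' hw', ?_⟩
    set P := (List.ofFn fun i : Fin n => h i.succ).prod with hP
    have conjA : ∀ (x : G) {y : G}, y ∈ A → x⁻¹ * y * x ∈ A := fun x y hy => by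
      have := hA.conj_mem y hy x⁻¹
      rwa [inv_inv] at this
    have m1 : P⁻¹ * ((h 0)⁻¹ * d * h 0 * d⁻¹) * P ∈ A :=
      conjA P (A.mul_mem (conjA (h 0) hd) (A.inv_mem hd))
    have e1 := hc v' hv'.1 _ m1
    have e2 := hc b⁻¹ (A.inv_mem hb) _ (conjA (h 0) hd)
    have e3 := hc b⁻¹ (A.inv_mem hb) _ (A.inv_mem hd)
    calc P⁻¹ * ((h 0)⁻¹ * b * h 0 * b⁻¹) * P * v' * (P⁻¹ * ((h 0)⁻¹ * d * h 0 * d⁻¹) * P * w')
        = P⁻¹ * ((h 0)⁻¹ * b * h 0 * b⁻¹) * P * (v' * (P⁻¹ * ((h 0)⁻¹ * d * h 0 * d⁻¹) * P)) *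
            w' := by group
      _ = P⁻¹ * ((h 0)⁻¹ * b * h 0 * b⁻¹) * P * ((P⁻¹ * ((h 0)⁻¹ * d * h 0 * d⁻¹) * P) * v') *
            w' := by rw [e1]
      _ = P⁻¹ * (h 0)⁻¹ * b * h 0 * (b⁻¹ * ((h 0)⁻¹ * d * h 0)) * d⁻¹ * P * (v' * w') := by group
      _ = P⁻¹ * (h 0)⁻¹ * b * h 0 * (((h 0)⁻¹ * d * h 0) * b⁻¹) * d⁻¹ * P * (v' * w') := by rw [e2]
      _ = P⁻¹ * (h 0)⁻¹ * b * d * h 0 * (b⁻¹ * d⁻¹) * P * (v' * w') := by group
      _ = P⁻¹ * (h 0)⁻¹ * b * d * h 0 * (d⁻¹ * b⁻¹) * P * (v' * w') := by rw [e3]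
      _ = P⁻¹ * ((h 0)⁻¹ * (b * d) * h 0 * (b * d)⁻¹) * P * (v' * w') := by group

theorem TT_inv (A : Subgroup G) [hA : A.Normal] (hc : ∀ x ∈ A, ∀ y ∈ A, x * y = y * x) {n : ℕ} :
    ∀ (h : Fin n → G) {v : G}, TT A h v → TT A h v⁻¹ := by
  induction n with
  | zero =>
    rintro h v ⟨hv, b, -, e⟩
    simp only [List.ofFn_zero, List.prod_nil, one_mul] at e
    rw [← e, inv_one]
    exact TT_one A h
  | succ n ih =>
    intro h v hv
    rw [TT_succ] at hv ⊢
    obtain ⟨b, hb, v', hv', rfl⟩ := hv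
    refine ⟨b⁻¹, A.inv_mem hb, v'⁻¹, ih _ hv', ?_⟩
    set P := (List.ofFn fun i : Fin n => h i.succ).prod with hP
    have conjA : ∀ (x : G) {y : G}, y ∈ A → x⁻¹ * y * x ∈ A := fun x y hy => by
      have := hA.conj_mem y hy x⁻¹
      rwa [inv_inv] at this
    have m1 : P⁻¹ * ((h 0)⁻¹ * b * h 0 * b⁻¹) * P ∈ A :=
      conjA P (A.mul_mem (conjA (h 0) hb) (A.inv_mem hb))
    have e1 := hc v'⁻¹ (A.inv_mem hv'.1) _ (A.inv_mem m1)
    have e2 := hc b hb _ (A.inv_mem (conjA (h 0) hb))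
    rw [mul_inv_rev, e1]
    congr 1
    calc (P⁻¹ * ((h 0)⁻¹ * b * h 0 * b⁻¹) * P)⁻¹
        = P⁻¹ * (b * ((h 0)⁻¹ * b * h 0)⁻¹) * P := by group
      _ = P⁻¹ * (((h 0)⁻¹ * b * h 0)⁻¹ * b) * P := by rw [e2]
      _ = P⁻¹ * ((h 0)⁻¹ * b⁻¹ * h 0 * b⁻¹⁻¹) * P := by group

/-- the elements `q` with `⁅a, q⁆` in `TT` for all `a` in `A` -/
def UU (A : Subgroup G) [hA : A.Normal] (hc : ∀ x ∈ A, ∀ y ∈ A, x * y = y * x) {n : ℕ}
    (h : Fin n → G) : Subgroup G where
  carrier := {q | ∀ a ∈ A, TT A h ⁅a, q⁆}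
  one_mem' := fun a _ => by
    rw [commutatorElement_one_right]
    exact TT_one A h
  mul_mem' := by
    intro q q' hq hq' a ha
    have h1 := hq' a ha
    have h2 := hq (q' * a * q'⁻¹) (hA.conj_mem a ha q')
    have e1 := hc _ h1.1 _ h2.1
    have h3 := TT_mul A hc h h2 h1
    have e : ⁅a, q * q'⁆ = ⁅q' * a * q'⁻¹, q⁆ * ⁅a, q'⁆ := by
      rw [← e1]
      simp only [commutatorElement_def]
      group
    rw [e]
    exact h3
  inv_mem' := by
    intro q hq a ha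
    have ha' : q⁻¹ * a * q ∈ A := by
      have := hA.conj_mem a ha q⁻¹
      rwa [inv_inv] at this
    have h1 := TT_inv A hc h (hq _ ha')
    have e : ⁅a, q⁻¹⁆ = ⁅q⁻¹ * a * q, q⁆⁻¹ := by
      have e1 := hc a ha _ (A.inv_mem ha')
      have e2 : ⁅q⁻¹ * a * q, q⁆⁻¹ = a * (q⁻¹ * a * q)⁻¹ := by
        simp only [commutatorElement_def]; group
      have e3 : ⁅a, q⁻¹⁆ = a * (q⁻¹ * a * q)⁻¹ := by
        simp only [commutatorElement_def]; group
      rw [e2, e3]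
    rw [e]
    exact h1

theorem UU_gen (A : Subgroup G) [hA : A.Normal] (hc : ∀ x ∈ A, ∀ y ∈ A, x * y = y * x) {n : ℕ} :
    ∀ (h : Fin n → G) (j : Fin n), h j ∈ UU A hc h := by
  induction n with
  | zero => intro h j; exact j.elim0
  | succ n ih =>
    intro h
    have conjA : ∀ (x : G) {y : G}, y ∈ A → x⁻¹ * y * x ∈ A := fun x y hy => by
      have := hA.conj_mem y hy x⁻¹
      rwa [inv_inv] at this
    have hle : ∀ v, TT A (fun i : Fin n => h i.succ) v → TT A h v := by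
      intro v hv
      rw [TT_succ]
      exact ⟨1, A.one_mem, v, hv, by group⟩
    have h1 : ∀ j : Fin n, h j.succ ∈ UU A hc h := fun j a ha =>
      hle _ (ih (fun i : Fin n => h i.succ) j a ha)
    set P := (List.ofFn fun i : Fin n => h i.succ).prod with hP
    have h2 : P ∈ UU A hc h := by
      apply Subgroup.list_prod_mem
      intro x hx
      obtain ⟨i, rfl⟩ := (List.mem_ofFn' _ _).1 hx
      exact h1 _
    have h3 : P⁻¹ * h 0 * P ∈ UU A hc h := by
      intro a ha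
      rw [TT_succ]
      refine ⟨h 0 * (P * a * P⁻¹) * (h 0)⁻¹, hA.conj_mem _ (hA.conj_mem a ha P) (h 0), 1,
        TT_one A _, ?_⟩
      simp only [commutatorElement_def, ← hP]
      group
    have h4 : h 0 ∈ UU A hc h := by
      have := (UU A hc h).mul_mem ((UU A hc h).mul_mem h2 h3) ((UU A hc h).inv_mem h2)
      have e : P * (P⁻¹ * h 0 * P) * P⁻¹ = h 0 := by group
      rwa [e] at this
    intro j
    refine Fin.cases h4 (fun j => h1 j) j

/-- If `A` is an abelian normal subgroup and the `h i` generate the group modulo `A`, then all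
elements `(∏ h) u` with `u ∈ [A, G]` are products of conjugates of the `h i`. -/
theorem ab_step (A : Subgroup G) [hA : A.Normal] (hc : ∀ x ∈ A, ∀ y ∈ A, x * y = y * x) {n : ℕ}
    (h : Fin n → G) (hgen : Subgroup.closure (Set.range h) ⊔ A = ⊤) {u : G}
    (hu : u ∈ ⁅A, (⊤ : Subgroup G)⁆) : DependentOn ((List.ofFn h).prod * u) h := by
  have h1 : UU A hc h = ⊤ := by
    rw [eq_top_iff, ← hgen]
    refine sup_le ?_ ?_
    · rw [Subgroup.closure_le]
      rintro _ ⟨i, rfl⟩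
      exact UU_gen A hc h i
    · intro x hx a ha
      have : ⁅a, x⁆ = 1 := commutatorElement_eq_one_iff_mul_comm.2 (hc a ha x hx)
      rw [this]
      exact TT_one A h
  have h2 : TT A h u := by
    rw [Subgroup.commutator_def] at hu
    induction hu using Subgroup.closure_induction with
    | mem x hx =>
      obtain ⟨a, ha, q, -, rfl⟩ := hx
      have : q ∈ UU A hc h := by rw [h1]; trivial
      exact this a ha
    | one => exact TT_one A h
    | mul x y _ _ ihx ihy => exact TT_mul A hc h ihx ihy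
    | inv x _ ih => exact TT_inv A hc h ih
  obtain ⟨-, b, -, e⟩ := h2
  exact ⟨b, e.symm⟩

end Ab

end Pool.Agent.H408.ND
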