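import Pool.Agent.H408.ND.Qm
import Pool.Graph.R_pool_sql_team_seeded_2aa45f1a.Q322.BQ.Cnt

/-!
Brooks' quasimorphisms which are unbounded on the powers of a given element.
-/

set_option autoImplicit false

namespace Pool.Agent.H408.ND

open FreeGroup
open Pool.Agent.Q322.BQ (cnt cnt_append_ge cnt_append_le cnt_eq_zero_of_length cnt_finite)
open Pool.Agent.Q98.Pos

section Words

variable {α : Type}

theorem cnt_invRev' (w L : List (α × Bool)) : cnt (invRev w) L = cnt w (invRev L) := by
  have hinj : Function.Injective (fun p : List (α × Bool) × List (α × Bool) =>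
      (invRev p.2, invRev p.1)) := by
    rintro ⟨a, b⟩ ⟨c, d⟩ h
    simp only [Prod.mk.injEq] at h
    exact Prod.ext (invRev_injective h.2) (invRev_injective h.1)
  rw [cnt, cnt, ← Set.ncard_image_of_injective _ hinj]
  congr 1
  ext ⟨a, b⟩
  simp only [Set.mem_image, Set.mem_ofPred_eq, Prod.exists, Prod.mk.injEq]
  constructor
  · rintro ⟨a', b', h, rfl, rfl⟩
    rw [← h, invRev_append, invRev_append, invRev_invRev]
    simp
  · intro h
    refine ⟨invRev b, invRev a, ?_, invRev_invRev, invRev_invRev⟩
    have := congrArg invRev h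
    rw [invRev_invRev, invRev_append, invRev_append] at this
    rw [← this]
    simp

/-- the difference of the numbers of occurrences of `W` and of its inverse -/
noncomputable def hw (W L : List (α × Bool)) : ℤ := (cnt W L : ℤ) - (cnt (invRev W) L : ℤ)

theorem hw_invRev (W L : List (α × Bool)) : hw W (invRev L) = - hw W L := by
  unfold hw
  have h1 := cnt_invRev' W L
  have h2 := cnt_invRev' W (invRev L)
  rw [invRev_invRev] at h2
  rw [← h1, h2]
  ring

theorem invRev_ne {W : List (α × Bool)} (hW : W ≠ []) : invRev W ≠ [] := by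
  intro h
  apply hW
  have := congrArg List.length h
  rw [invRev_length] at this
  exact List.length_eq_zero_iff.1 this

theorem hw_append {W : List (α × Bool)} (hW : W ≠ []) (x y : List (α × Bool)) :
    |hw W (x ++ y) - hw W x - hw W y| ≤ W.length := by
  unfold hw
  have h1 := cnt_append_ge hW x y
  have h2 := cnt_append_le hW x y
  have h3 := cnt_append_ge (invRev_ne hW) x y
  have h4 := cnt_append_le (invRev_ne hW) x y
  rw [invRev_length] at h4
  rw [abs_le]
  constructor <;> omega

/-- a factor of a periodic word with the length of the period is a rotation of the period -/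
theorem factor_pow {β : Type} (W V : List β) (hl : V.length = W.length) (hW : W ≠ []) (m : ℕ) :
    ∀ p q : List β, p ++ (V ++ q) = (List.replicate m W).flatten →
      ∃ A B : List β, W = A ++ B ∧ V = B ++ A := by
  induction m with
  | zero =>
    intro p q h
    exfalso
    have h1 := congrArg List.length h
    simp only [List.length_append, List.replicate_zero, List.flatten_nil, List.length_nil] at h1
    exact hW (List.length_eq_zero_iff.1 (by omega))
  | succ m ih =>
    intro p q h
    rw [List.replicate_succ, List.flatten_cons, List.append_eq_append_iff] at h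
    rcases h with ⟨a', h1, h2⟩ | ⟨c', h1, h2⟩
    · rw [List.append_eq_append_iff] at h2
      have hl1 := congrArg List.length h1
      rw [List.length_append] at hl1
      rcases h2 with ⟨x, h3, h4⟩ | ⟨c, h3, h4⟩
      · have hl3 := congrArg List.length h3
        rw [List.length_append] at hl3
        have hp : p = [] := List.length_eq_zero_iff.1 (by omega)
        have hx : x = [] := List.length_eq_zero_iff.1 (by omega)
        refine ⟨[], W, rfl, ?_⟩
        rw [hp, List.nil_append] at h1
        rw [hx, List.append_nil] at h3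
        rw [List.append_nil, h1, h3]
      · have hl3 := congrArg List.length h3
        rw [List.length_append] at hl3
        rcases m with _ | m
        · rw [List.replicate_zero, List.flatten_nil] at h4
          have hc : c = [] := (List.append_eq_nil_iff.1 h4.symm).1
          have hp : p = [] := by
            rw [hc, List.length_nil] at hl3
            exact List.length_eq_zero_iff.1 (by omega)
          refine ⟨[], W, rfl, ?_⟩
          rw [hc, List.append_nil] at h3
          rw [hp, List.nil_append] at h1
          rw [List.append_nil, h1, h3]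
        · rw [List.replicate_succ, List.flatten_cons, h1, List.append_assoc] at h4
          have h5 := List.append_inj h4 (by omega)
          exact ⟨p, a', h1, by rw [h3, h5.1]⟩
    · exact ih _ _ h2.symm

theorem inv_fixed_nil {B : List (α × Bool)} (hB : IsReduced B) (h : B = invRev B) : B = [] := by
  classical
  have h1 : (mk B) = (mk B)⁻¹ := by
    rw [inv_mk, ← h]
  have h2 : (mk B) ^ 2 = 1 := by
    rw [pow_two]
    nth_rewrite 1 [h1]
    exact inv_mul_cancel _
  have h3 : mk B = 1 := by
    have h4 : (mk B) ^ 2 = 1 ^ 2 := by rw [h2, one_pow]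
    exact pow_left_injective (two_ne_zero) h4
  have h4 := toWord_mk_red hB
  rw [h3, toWord_one] at h4
  exact h4.symm

/-- the inverse of a reduced word does not occur in the powers of the word -/
theorem cnt_inv_pow {W : List (α × Bool)} (hr : IsReduced W) (hW : W ≠ []) (m : ℕ) :
    cnt (invRev W) (List.replicate m W).flatten = 0 := by
  rw [cnt, Set.ncard_eq_zero (cnt_finite _ _)]
  ext ⟨p, q⟩
  simp only [Set.mem_ofPred_eq, Set.mem_empty_iff_false, iff_false]
  intro h
  rw [List.append_assoc] at h
  obtain ⟨A, B, h1, h2⟩ := factor_pow W (invRev W) (invRev_length) hW m p q h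
  rw [h1, invRev_append] at h2
  have h3 := List.append_inj h2 (invRev_length)
  have hA : IsReduced A := red_mid (P := []) (R := B) hr (by rw [h1]; rfl)
  have hB : IsReduced B := red_mid (P := A) (R := []) hr (by rw [h1]; simp)
  apply hW
  rw [h1, inv_fixed_nil hA h3.2.symm, inv_fixed_nil hB h3.1.symm]
  rfl

theorem cnt_pow {W : List (α × Bool)} (hW : W ≠ []) (m : ℕ) :
    m ≤ cnt W (List.replicate m W).flatten := by
  induction m with
  | zero => exact Nat.zero_le _
  | succ m ih =>
    rw [List.replicate_succ, List.flatten_cons]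
    have h1 := cnt_append_ge hW W (List.replicate m W).flatten
    have h2 : 1 ≤ cnt W W := by
      rw [cnt, Nat.one_le_iff_ne_zero, Ne, Set.ncard_eq_zero (cnt_finite _ _)]
      intro h
      have : (([] : List (α × Bool)), ([] : List (α × Bool))) ∈
          {p : List (α × Bool) × List (α × Bool) | p.1 ++ W ++ p.2 = W} := by simp
      rw [h] at this
      exact this
    omega

end Words

/-- the quasimorphism -/
noncomputable def hq {α : Type} [DecidableEq α] (W : List (α × Bool)) (g : FreeGroup α) : ℤ :=
  hw W g.toWord

theorem hq_inv {α : Type} [DecidableEq α] (W : List (α × Bool)) (g : FreeGroup α) :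
    hq W g⁻¹ = - hq W g := by
  unfold hq
  rw [toWord_inv, hw_invRev]

theorem hq_mul {α : Type} [DecidableEq α] {W : List (α × Bool)} (hW : W ≠ [])
    (g h : FreeGroup α) : |hq W (g * h) - hq W g - hq W h| ≤ 3 * W.length := by
  obtain ⟨C, R, S, h1, h2, h3⟩ := common_prefix (invRev g.toWord) h.toWord
  have h4 : g.toWord = invRev R ++ invRev C := by
    rw [← invRev_append, ← h1, invRev_invRev]
  have hgh : g * h = mk (invRev R ++ S) := by
    have e1 : g = mk (invRev R ++ invRev C) := by rw [← h4, mk_toWord]
    have e2 : h = mk (C ++ S) := by rw [← h2, mk_toWord]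
    rw [e1, e2]
    simp only [← mul_mk, ← inv_mk]
    group
  have hred : IsReduced (invRev R ++ S) := by
    rw [reduced_append]
    refine ⟨red_mid (P := []) (R := invRev C) isReduced_toWord (by rw [h4]; simp),
      red_mid (P := C) (R := []) isReduced_toWord (by rw [h2]; simp), ?_⟩
    intro x hx y hy hxy
    rw [getLast?_invRev] at hx
    simp only [Option.mem_def, Option.map_eq_some_iff] at hx
    obtain ⟨z, hz, rfl⟩ := hx
    have hne := h3 z hz y hy
    simp only at hxy ⊢
    have h8 : z.2 ≠ y.2 := fun h9 => hne (Prod.ext hxy h9)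
    revert h8
    cases z.2 <;> cases y.2 <;> simp
  have e0 : (g * h).toWord = invRev R ++ S := by rw [hgh, toWord_mk_red hred]
  unfold hq
  rw [e0, h4, h2]
  have b1 := hw_append hW (invRev R) S
  have b2 := hw_append hW (invRev R) (invRev C)
  have b3 := hw_append hW C S
  have b4 := hw_invRev W C
  rw [abs_le] at *
  constructor <;> linarith

theorem hq_pow {α : Type} [DecidableEq α] {u : FreeGroup α} (hu : u ≠ 1) :
    ∃ W : List (α × Bool), W ≠ [] ∧ ∀ m : ℕ, (m : ℤ) ≤ hq W (u ^ m) + 2 * W.length := by
  have hW : reduceCyclically u.toWord ≠ [] := by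
    intro h
    have h1 := reduceCyclically.conj_conjugator_reduceCyclically u.toWord
    rw [h, List.append_nil] at h1
    apply hu
    rw [← mk_toWord (x := u), ← h1, ← mul_mk, ← inv_mk, mul_inv_cancel]
  refine ⟨reduceCyclically u.toWord, hW, ?_⟩
  intro m
  rcases m with _ | m
  · simp only [pow_zero, hq, toWord_one]
    have : hw (reduceCyclically u.toWord) [] = 0 := by
      unfold hw
      rw [Pool.Agent.Q322.BQ.cnt_nil hW, Pool.Agent.Q322.BQ.cnt_nil (invRev_ne hW)]
      rfl
    rw [this]
    push_cast
    positivity
  · unfold hq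
    rw [toWord_pow, reduceCyclically.reduce_flatten_replicate isReduced_toWord,
      if_neg (Nat.succ_ne_zero m)]
    set W := reduceCyclically u.toWord with hWd
    set C := reduceCyclically.conjugator u.toWord
    have hr : IsReduced W := (reduceCyclically.isCyclicallyReduced isReduced_toWord).isReduced
    have b1 := hw_append hW (C ++ (List.replicate (m + 1) W).flatten) (invRev C)
    have b2 := hw_append hW C (List.replicate (m + 1) W).flatten
    have b3 := hw_invRev W C
    have b4 : ((m + 1 : ℕ) : ℤ) ≤ hw W (List.replicate (m + 1) W).flatten := by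
      unfold hw
      rw [cnt_inv_pow hr hW]
      have := cnt_pow hW (m + 1)
      push_cast
      omega
    rw [abs_le] at b1 b2
    linarith [b1.1, b1.2, b2.1, b2.2]

/-- a quasimorphism of a free group which is unbounded on the powers of a nontrivial element -/
theorem exists_qm {S : Type} [Group S] [IsFreeGroup S] {u : S} (hu : u ≠ 1) :
    ∃ (q : S → ℤ) (K : ℤ), 0 ≤ K ∧ (∀ g, q g⁻¹ = - q g) ∧
      (∀ g h, |q (g * h) - q g - q h| ≤ K) ∧ ∀ m : ℕ, (m : ℤ) ≤ q (u ^ m) + K := by
  classical
  let e := IsFreeGroup.toFreeGroup S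
  obtain ⟨W, hW, h⟩ := hq_pow (u := e u) (by
    intro h
    exact hu ((map_eq_one_iff e e.injective).1 h))
  refine ⟨fun x => hq W (e x), 3 * W.length,
    mul_nonneg (by norm_num) (Int.natCast_nonneg _), fun g => ?_, fun g h => ?_,
    fun m => ?_⟩
  · have h1 : e g⁻¹ = (e g)⁻¹ := map_inv e g
    change hq W (e g⁻¹) = - hq W (e g)
    rw [h1, hq_inv]
  · have h1 : e (g * h) = e g * e h := map_mul e g h
    change |hq W (e (g * h)) - hq W (e g) - hq W (e h)| ≤ _
    rw [h1]
    exact hq_mul hW _ _
  · have h1 : e (u ^ m) = (e u) ^ m := map_pow e u m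
    change (m : ℤ) ≤ hq W (e (u ^ m)) + _
    rw [h1]
    have := h m
    have h2 : (0 : ℤ) ≤ W.length := Int.natCast_nonneg _
    linarith

/-- quasimorphisms are bounded on products of conjugates -/
theorem q_bdd {S : Type} [Group S] {q : S → ℤ} {K : ℤ} (hinv : ∀ g, q g⁻¹ = - q g)
    (hmul : ∀ g h, |q (g * h) - q g - q h| ≤ K) {n : ℕ} (g c : Fin n → S) :
    |q (List.ofFn fun i => c i * g i * (c i)⁻¹).prod| ≤ ∑ i, (|q (g i)| + 3 * K) := by
  have h1 : q 1 = 0 := by
    have := hinv 1
    rw [inv_one] at this
    omega
  induction n with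
  | zero => simp [h1]
  | succ n ih =>
    rw [List.ofFn_succ, List.prod_cons, Fin.sum_univ_succ]
    have h1 := ih (fun i => g i.succ) (fun i => c i.succ)
    have h2 := hmul (c 0) (g 0)
    have h3 := hmul (c 0 * g 0) (c 0)⁻¹
    have h4 := hmul (c 0 * g 0 * (c 0)⁻¹)
      (List.ofFn fun i : Fin n => c i.succ * g i.succ * (c i.succ)⁻¹).prod
    rw [hinv] at h3
    have h5 := le_abs_self (q (g 0))
    have h6 := neg_abs_le (q (g 0))
    rw [abs_le] at h1 h2 h3 h4 ⊢
    constructor <;> linarith

/-- **Non-dependence**: for every nontrivial element `u` of a free group and all `b`, the elements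
`b u ^ m` are not products of conjugates of `g 0, ..., g (n-1)` for large `m` -/
theorem not_dep_pow {S : Type} [Group S] [IsFreeGroup S] {u : S} (hu : u ≠ 1) (b : S) {n : ℕ}
    (g : Fin n → S) : ∃ k : ℕ, ∀ m : ℕ, k ≤ m → ¬ DependentOn (b * u ^ m) g := by
  obtain ⟨q, K, hK, hinv, hmul, hpow⟩ := exists_qm hu
  refine ⟨(∑ i, (|q (g i)| + 3 * K) + |q b| + 2 * K + 1).toNat, ?_⟩
  rintro m hm ⟨c, hc⟩
  have h1 := q_bdd hinv hmul g c
  rw [← hc] at h1
  have h3 := hmul b (u ^ m)
  have h4 : ∑ i, (|q (g i)| + 3 * K) + |q b| + 2 * K + 1 ≤ (m : ℤ) := Int.toNat_le.1 hm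
  have h5 := le_abs_self (q b)
  have h6 := neg_abs_le (q b)
  have h7 := hpow m
  rw [abs_le] at h1 h3
  linarith [h1.1, h1.2, h3.1, h3.2]

end Pool.Agent.H408.ND
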