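import Pool.Agent.H408.ND.Brooks

/-!
Commuting elements of free groups.
-/

set_option autoImplicit false

namespace Pool.Agent.H408.ND

open FreeGroup
open Pool.Agent.Q98.Pos

theorem comm_of_subsingleton {α : Type} [Subsingleton α] (x y : FreeGroup α) :
    x * y = y * x := by
  induction x using FreeGroup.induction_on generalizing y with
  | C1 => simp
  | of i =>
    induction y using FreeGroup.induction_on with
    | C1 => simp
    | of j => rw [Subsingleton.elim i j]
    | inv_of j _ => rw [Subsingleton.elim i j]; simp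
    | mul z w hz hw => rw [← mul_assoc, hz, mul_assoc, hw, mul_assoc]
  | inv_of i hi =>
    have h2 := hi y
    change (FreeGroup.of i)⁻¹ * y = y * (FreeGroup.of i)⁻¹
    rw [inv_mul_eq_iff_eq_mul, ← mul_assoc]
    have h3 : FreeGroup.of i * y = y * FreeGroup.of i := h2
    rw [h3, mul_inv_cancel_right]
  | mul z w hz hw => rw [mul_assoc, hw, ← mul_assoc, hz, mul_assoc]

theorem cyclic_of_subsingleton {α : Type} [Subsingleton α] :
    ∃ z : FreeGroup α, ∀ w : FreeGroup α, w ∈ Subgroup.zpowers z := by
  rcases isEmpty_or_nonempty α with h | ⟨⟨i⟩⟩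
  · refine ⟨1, fun w => ?_⟩
    rw [Subsingleton.elim w 1]
    exact Subgroup.one_mem _
  · refine ⟨FreeGroup.of i, fun w => ?_⟩
    induction w using FreeGroup.induction_on with
    | C1 => exact Subgroup.one_mem _
    | of j => rw [Subsingleton.elim j i]; exact Subgroup.mem_zpowers _
    | inv_of j _ =>
      rw [Subsingleton.elim j i]
      exact Subgroup.inv_mem _ (Subgroup.mem_zpowers _)
    | mul z w hz hw => exact Subgroup.mul_mem _ hz hw

/-- a nontrivial central element forces the rank to be at most one -/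
theorem subsingleton_of_central {α : Type} {x : FreeGroup α} (hx : x ≠ 1)
    (h : ∀ y, x * y = y * x) : Subsingleton α := by
  classical
  have hne : x.toWord ≠ [] := fun h1 => hx (toWord_eq_nil_iff.1 h1)
  obtain ⟨i, hi⟩ : ∃ i, x.toWord.head? = some i := by
    rcases hw : x.toWord with _ | ⟨i, L⟩
    · exact absurd hw hne
    · exact ⟨i, rfl⟩
  obtain ⟨l, hl⟩ : ∃ l, x.toWord.getLast? = some l :=
    ⟨_, List.getLast?_eq_some_getLast hne⟩
  have key : ∀ j : α, j = i.1 := by
    intro j
    by_contra hj
    have hred : IsReduced ([(j, !l.2)] ++ x.toWord ++ [(j, l.2)]) := by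
      rw [reduced_append, reduced_append]
      refine ⟨⟨by simp, isReduced_toWord, ?_⟩, by simp, ?_⟩
      · intro a ha b hb hab
        rw [hi] at hb
        simp only [List.getLast?_singleton, Option.mem_def, Option.some.injEq] at ha hb
        subst ha hb
        exact absurd hab hj
      · intro a ha b hb hab
        rw [List.getLast?_append, hl] at ha
        simp only [Option.some_or, Option.mem_def, Option.some.injEq, List.head?_cons] at ha hb
        subst ha hb
        rfl
    have e1 : mk ([(j, !l.2)] ++ x.toWord ++ [(j, l.2)]) = x := by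
      rw [← mul_mk, ← mul_mk, mk_toWord, ← h, mul_assoc]
      have e2 : mk [(j, !l.2)] = (mk [(j, l.2)])⁻¹ := by
        rw [inv_mk]; rfl
      rw [e2, inv_mul_cancel, mul_one]
    have e3 := toWord_mk_red hred
    rw [e1] at e3
    have e4 := congrArg List.length e3
    simp only [List.length_append, List.length_singleton] at e4
    omega
  exact ⟨fun a b => by rw [key a, key b]⟩

section Free

variable {S : Type} [Group S] [IsFreeGroup S]

theorem torsionFree : IsMulTorsionFree S := by
  have e := IsFreeGroup.toFreeGroup S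
  exact Function.Injective.isMulTorsionFree e.toMonoidHom e.injective

theorem gen_subsingleton {x : S} (hx : x ≠ 1) (h : ∀ y, x * y = y * x) :
    Subsingleton (IsFreeGroup.Generators S) := by
  let e := IsFreeGroup.toFreeGroup S
  apply subsingleton_of_central (x := e x)
  · intro h1
    exact hx ((map_eq_one_iff e e.injective).1 h1)
  · intro y
    obtain ⟨y, rfl⟩ := e.surjective y
    rw [← _root_.map_mul, h, _root_.map_mul]

theorem comm_of_gen (h : Subsingleton (IsFreeGroup.Generators S)) (x y : S) : x * y = y * x := by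
  let e := IsFreeGroup.toFreeGroup S
  apply e.injective
  rw [_root_.map_mul, _root_.map_mul]
  exact comm_of_subsingleton _ _

theorem cyclic_of_gen (h : Subsingleton (IsFreeGroup.Generators S)) :
    ∃ z : S, ∀ w : S, w ∈ Subgroup.zpowers z := by
  let e := IsFreeGroup.toFreeGroup S
  obtain ⟨z, hz⟩ := cyclic_of_subsingleton (α := IsFreeGroup.Generators S)
  refine ⟨e.symm z, fun w => ?_⟩
  obtain ⟨k, hk⟩ := hz (e w)
  refine ⟨k, ?_⟩
  apply e.injective
  simp only at hk ⊢
  rw [map_zpow, MulEquiv.apply_symm_apply, hk]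

theorem centralizer_gen {x : S} (hx : x ≠ 1) :
    Subsingleton (IsFreeGroup.Generators (Subgroup.centralizer {x})) := by
  have hxm : x ∈ Subgroup.centralizer {x} := by
    rw [Subgroup.mem_centralizer_singleton_iff]
  apply gen_subsingleton (x := (⟨x, hxm⟩ : Subgroup.centralizer {x}))
  · intro h
    exact hx (congrArg Subtype.val h)
  · rintro ⟨y, hy⟩
    rw [Subgroup.mem_centralizer_singleton_iff] at hy
    exact Subtype.ext hy.symm

/-- commutation is transitive on nontrivial elements -/
theorem comm_trans {x a b : S} (hx : x ≠ 1) (ha : a * x = x * a) (hb : b * x = x * b) :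
    a * b = b * a := by
  have ha' : a ∈ Subgroup.centralizer {x} := Subgroup.mem_centralizer_singleton_iff.2 ha
  have hb' : b ∈ Subgroup.centralizer {x} := Subgroup.mem_centralizer_singleton_iff.2 hb
  have := comm_of_gen (centralizer_gen hx) (⟨a, ha'⟩ : Subgroup.centralizer {x}) ⟨b, hb'⟩
  exact congrArg Subtype.val this

/-- two nontrivial elements of a nonabelian free group have conjugates which do not commute -/
theorem exists_conj (hS : ¬ ∀ x y : S, x * y = y * x) {x y : S} (hx : x ≠ 1) (hy : y ≠ 1) :
    ∃ c : S, x * (c * y * c⁻¹) ≠ (c * y * c⁻¹) * x := by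
  by_contra hcon
  push Not at hcon
  apply hS
  have htf : IsMulTorsionFree S := torsionFree
  have hconj : ∀ s : S, s * y * s⁻¹ ≠ 1 := by
    intro s h
    apply hy
    have h1 : s⁻¹ * (s * y * s⁻¹) * s = s⁻¹ * 1 * s := by rw [h]
    rw [mul_one, inv_mul_cancel] at h1
    rw [← h1]
    group
  have h1 : ∀ s : S, y * (s * y * s⁻¹) = (s * y * s⁻¹) * y := by
    intro s
    have h2 := hcon 1
    rw [one_mul, inv_one, mul_one] at h2
    exact comm_trans hx h2.symm (hcon s).symm
  obtain ⟨⟨z, hzm⟩, hz⟩ := cyclic_of_gen (centralizer_gen hy)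
  have hzy : z * y = y * z := Subgroup.mem_centralizer_singleton_iff.1 hzm
  have hz' : ∀ w : S, w * y = y * w → ∃ k : ℤ, z ^ k = w := by
    intro w hw
    obtain ⟨k, hk⟩ := hz ⟨w, Subgroup.mem_centralizer_singleton_iff.2 hw⟩
    refine ⟨k, ?_⟩
    have := congrArg Subtype.val hk
    simpa using this
  have hz1 : z ≠ 1 := by
    rintro rfl
    obtain ⟨k, hk⟩ := hz' y rfl
    rw [one_zpow] at hk
    exact hy hk.symm
  have h3 : ∀ s : S, ∃ k : ℤ, z ^ k = s * z * s⁻¹ := by
    intro s
    apply hz'
    refine (comm_trans (hconj s) ?_ ?_)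
    · calc s * z * s⁻¹ * (s * y * s⁻¹) = s * (z * y) * s⁻¹ := by group
        _ = s * (y * z) * s⁻¹ := by rw [hzy]
        _ = s * y * s⁻¹ * (s * z * s⁻¹) := by group
    · exact h1 s
  have h4 : ∀ s : S, s * z = z * s := by
    intro s
    rcases eq_or_ne s 1 with rfl | hs
    · simp
    obtain ⟨a, ha⟩ := h3 s
    obtain ⟨b, hb⟩ := h3 s⁻¹
    have h5 : z ^ (a * b) = z := by
      rw [zpow_mul, ha, conj_zpow, hb]
      group
    have h6 : z ^ (a * b - 1) = 1 := by
      rw [zpow_sub, h5, zpow_one, mul_inv_cancel]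
    have h7 : a * b = 1 := by
      have := (IsMulTorsionFree.zpow_eq_one_iff_right hz1).1 h6
      omega
    have h8 : a * a = 1 := by
      rcases Int.eq_one_or_neg_one_of_mul_eq_one h7 with h | h <;> rw [h] <;> norm_num
    have h9 : s ^ 2 * z = z * s ^ 2 := by
      have h10 : s ^ 2 * z * (s ^ 2)⁻¹ = z := by
        calc s ^ 2 * z * (s ^ 2)⁻¹ = s * (s * z * s⁻¹) * s⁻¹ := by rw [pow_two]; group
          _ = s * z ^ a * s⁻¹ := by rw [ha]
          _ = (s * z * s⁻¹) ^ a := by rw [conj_zpow]
          _ = z ^ (a * a) := by rw [← ha, ← zpow_mul]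
          _ = z := by rw [h8, zpow_one]
      calc s ^ 2 * z = (s ^ 2 * z * (s ^ 2)⁻¹) * s ^ 2 := by group
        _ = z * s ^ 2 := by rw [h10]
    have h11 : s ^ 2 ≠ 1 := by
      intro h
      apply hs
      have h4 : s ^ 2 = 1 ^ 2 := by rw [h, one_pow]
      exact pow_left_injective (two_ne_zero) h4
    refine comm_trans h11 ?_ h9.symm
    group
  exact comm_of_gen (gen_subsingleton hz1 fun s => (h4 s).symm)

end Free

end Pool.Agent.H408.ND
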