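import Pool.Agent.H408.ND.AbNil

/-!
Products of conjugacy classes in groups with an abelian term of the lower central series and in
groups with an abelian normal subgroup of prime power index.
-/

set_option autoImplicit false

namespace Pool.Agent.H408.ND

open scoped commutatorElement

universe u v

theorem comm_le_of_sup_center' {G : Type*} [Group G] (H Z : Subgroup G)
    (hZ : Z ≤ Subgroup.center G) (h : H ⊔ Z = ⊤) : commutator G ≤ ⁅H, H⁆ := by
  have hn : Z.Normal := by
    refine ⟨fun z hz g => ?_⟩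
    have := Subgroup.mem_center_iff.1 (hZ hz) g
    rw [this, mul_inv_cancel_right]
    exact hz
  have key : ∀ x : G, ∃ y ∈ H, ∃ z ∈ Z, y * z = x := by
    intro x
    have hx : x ∈ H ⊔ Z := by rw [h]; trivial
    exact Subgroup.mem_sup_of_normal_right.1 hx
  rw [commutator_eq_closure, Subgroup.closure_le]
  rintro _ ⟨x, y, rfl⟩
  obtain ⟨x, hx, z, hz, rfl⟩ := key x
  obtain ⟨y, hy, w, hw, rfl⟩ := key y
  have hz' := Subgroup.mem_center_iff.1 (hZ hz)
  have hw' := Subgroup.mem_center_iff.1 (hZ hw)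
  have e : ⁅x * z, y * w⁆ = ⁅x, y⁆ := by
    simp only [commutatorElement_def, mul_inv_rev]
    calc x * z * (y * w) * (z⁻¹ * x⁻¹) * (w⁻¹ * y⁻¹)
        = x * (z * (y * w)) * z⁻¹ * x⁻¹ * w⁻¹ * y⁻¹ := by group
      _ = x * ((y * w) * z) * z⁻¹ * x⁻¹ * w⁻¹ * y⁻¹ := by rw [← hz' (y * w)]
      _ = x * y * (w * x⁻¹) * w⁻¹ * y⁻¹ := by group
      _ = x * y * (x⁻¹ * w) * w⁻¹ * y⁻¹ := by rw [← hw' x⁻¹]
      _ = x * y * x⁻¹ * y⁻¹ := by group
  rw [e]
  exact Subgroup.commutator_mem_commutator hx hy

/-- the quotient by a subgroup which contains a term of the lower central series is nilpotent -/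
theorem nil_quot {G : Type u} [Group G] (K : Subgroup G) [K.Normal] (c : ℕ)
    (h : Subgroup.lowerCentralSeries (⊤ : Subgroup G) c ≤ K) : Group.IsNilpotent (G ⧸ K) := by
  rw [Subgroup.nilpotent_iff_lowerCentralSeries]
  refine ⟨c, ?_⟩
  have h4 := Subgroup.map_lowerCentralSeries (⊤ : Subgroup G) (QuotientGroup.mk' K) c
  rw [Subgroup.map_top_of_surjective _ (QuotientGroup.mk'_surjective K)] at h4
  rw [← h4, eq_bot_iff]
  rintro _ ⟨x, hx, rfl⟩
  exact Subgroup.mem_bot.2 ((QuotientGroup.eq_one_iff x).2 (h hx))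

theorem sup_of_map {G : Type u} [Group G] (K H : Subgroup G) [K.Normal]
    (h : H.map (QuotientGroup.mk' K) = ⊤) : H ⊔ K = ⊤ := by
  have h7 := Subgroup.comap_map_eq (QuotientGroup.mk' K) H
  rw [h, Subgroup.comap_top, QuotientGroup.ker_mk'] at h7
  exact h7.symm

theorem gen_mod_nil {G : Type u} [Group G] (K H : Subgroup G) [K.Normal]
    (hn : Group.IsNilpotent (G ⧸ K)) (hH : H ⊔ commutator G = ⊤) : H ⊔ K = ⊤ := by
  apply sup_of_map
  apply nil_gen
  rw [eq_top_iff, ← Subgroup.map_top_of_surjective _ (QuotientGroup.mk'_surjective K), ← hH,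
    Subgroup.map_sup]
  refine sup_le_sup le_rfl ?_
  rintro _ ⟨x, hx, rfl⟩
  exact map_comm_mem _ hx

theorem lcs_gen {G : Type u} [Group G] (H : Subgroup G) (hH : H ⊔ commutator G = ⊤) (c : ℕ) :
    H ⊔ Subgroup.lowerCentralSeries (⊤ : Subgroup G) c = ⊤ :=
  gen_mod_nil _ H (nil_quot (Subgroup.lowerCentralSeries (⊤ : Subgroup G) c) c le_rfl) hH

/-- conjugating the given elements does not change dependence -/
theorem dep_conj' {S : Type u} [Group S] {n : ℕ} (e g : Fin n → S) (a : S)
    (h : DependentOn a (fun l => e l * g l * (e l)⁻¹)) : DependentOn a g := by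
  obtain ⟨c, rfl⟩ := h
  refine ⟨fun l => c l * e l, ?_⟩
  congr 2
  funext l
  group

/-- conjugates generate modulo commutators -/
theorem closure_conj_le {G : Type u} [Group G] {n : ℕ} (e g : Fin n → G) (K : Subgroup G)
    (hK : commutator G ≤ K) : Subgroup.closure (Set.range g) ≤
      Subgroup.closure (Set.range fun l => e l * g l * (e l)⁻¹) ⊔ K := by
  rw [Subgroup.closure_le]
  rintro _ ⟨i, rfl⟩
  have h1 : e i * g i * (e i)⁻¹ ∈
      Subgroup.closure (Set.range fun l => e l * g l * (e l)⁻¹) ⊔ K :=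
    Subgroup.mem_sup_left (Subgroup.subset_closure ⟨i, rfl⟩)
  have h5 : ⁅e i, g i⁆ ∈ Subgroup.closure (Set.range fun l => e l * g l * (e l)⁻¹) ⊔ K :=
    Subgroup.mem_sup_right
      (hK (Subgroup.commutator_mem_commutator (Subgroup.mem_top _) (Subgroup.mem_top _)))
  have h6 := Subgroup.mul_mem _ (Subgroup.inv_mem _ h5) h1
  have h7 : ⁅e i, g i⁆⁻¹ * (e i * g i * (e i)⁻¹) = g i := by
    simp only [commutatorElement_def]
    group
  rw [h7] at h6
  exact h6

/-- **A full coset.**  In a group with an abelian term of the lower central series, a product of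
conjugacy classes of elements which generate the group modulo commutators is the coset of the
commutator subgroup. -/
theorem dep_core {G : Type u} [Group G] (c : ℕ)
    (hc : ∀ x ∈ Subgroup.lowerCentralSeries (⊤ : Subgroup G) c,
      ∀ y ∈ Subgroup.lowerCentralSeries (⊤ : Subgroup G) c, x * y = y * x) {n : ℕ}
    (g : Fin n → G) (hg : Subgroup.closure (Set.range g) ⊔ commutator G = ⊤) {a : G}
    (ha : (List.ofFn g).prod⁻¹ * a ∈ commutator G) : DependentOn a g := by
  set A := Subgroup.lowerCentralSeries (⊤ : Subgroup G) c with hA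
  have hAn : A.Normal := by rw [hA]; infer_instance
  set K := Subgroup.lowerCentralSeries (⊤ : Subgroup G) (c + 1) with hK
  have hKn : K.Normal := by rw [hK]; infer_instance
  have hKA : K = ⁅A, (⊤ : Subgroup G)⁆ := Subgroup.lowerCentralSeries_succ (⊤ : Subgroup G) c
  have hnil : Group.IsNilpotent (G ⧸ K) := nil_quot K (c + 1) le_rfl
  have hgQ : Subgroup.closure (Set.range fun i => QuotientGroup.mk' K (g i)) = ⊤ := by
    apply nil_gen
    have h5 : (Set.range fun i => QuotientGroup.mk' K (g i)) =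
        QuotientGroup.mk' K '' Set.range g := by
      rw [← Set.range_comp]; rfl
    rw [h5, ← MonoidHom.map_closure, eq_top_iff,
      ← Subgroup.map_top_of_surjective _ (QuotientGroup.mk'_surjective K), ← hg, Subgroup.map_sup]
    refine sup_le_sup le_rfl ?_
    rintro _ ⟨x, hx, rfl⟩
    exact map_comm_mem _ hx
  obtain ⟨c', hc'⟩ := (nil_main _ hgQ (QuotientGroup.mk' K a)).2 (by
    have h6 := map_comm_mem (QuotientGroup.mk' K) ha
    rw [map_mul, map_inv, map_list_prod, List.map_ofFn] at h6
    exact h6)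
  choose d hd using fun i => QuotientGroup.mk'_surjective K (c' i)
  have h7 : (List.ofFn fun i => d i * g i * (d i)⁻¹).prod⁻¹ * a ∈ K := by
    rw [← QuotientGroup.eq_one_iff]
    change QuotientGroup.mk' K _ = 1
    rw [map_mul, map_inv, dep_map, hc']
    simp only [hd]
    exact inv_mul_cancel _
  have h8 : Subgroup.closure (Set.range fun l => d l * g l * (d l)⁻¹) ⊔ A = ⊤ := by
    apply lcs_gen
    rw [eq_top_iff, ← hg]
    exact sup_le (closure_conj_le d g _ le_rfl) le_sup_right
  have h9 := ab_step A hc (fun l => d l * g l * (d l)⁻¹) h8 (by rw [← hKA]; exact h7)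
  rw [mul_inv_cancel_left] at h9
  exact dep_conj' d g a h9

/-- generation modulo an abelian normal subgroup of prime power index -/
theorem gen_p_mod {p : ℕ} [Fact p.Prime] {G : Type u} [Group G] (A : Subgroup G) [A.Normal]
    {m : ℕ} (hm : A.index = p ^ m) (H : Subgroup G) (hH : H ⊔ Phi p G = ⊤) : H ⊔ A = ⊤ := by
  have hfin : Finite (G ⧸ A) := by
    apply Nat.finite_of_card_ne_zero
    change A.index ≠ 0
    rw [hm]
    exact pow_ne_zero _ (Fact.out : p.Prime).ne_zero
  have hp : IsPGroup p (G ⧸ A) := IsPGroup.of_card hm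
  apply sup_of_map
  apply p_gen hp
  rw [eq_top_iff, ← Subgroup.map_top_of_surjective _ (QuotientGroup.mk'_surjective A), ← hH,
    Subgroup.map_sup]
  refine sup_le_sup le_rfl ?_
  rintro _ ⟨x, hx, rfl⟩
  exact map_phi_mem _ hx

end Pool.Agent.H408.ND
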