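import Pool.Agent.H408.ND.DepLcs

/-!
Images in groups with an abelian term of the lower central series and in groups with an abelian
normal subgroup of prime power index.
-/

set_option autoImplicit false

namespace Pool.Agent.H408.ND

open scoped commutatorElement

universe u v

/-- in a nilpotent group, for elements which need not generate it -/
theorem dep_nil_sub' {G : Type u} [Group G] [Group.IsNilpotent G] {n : ℕ} (g : Fin n → G) {t : G}
    (ht : t ∈ (⁅Subgroup.closure (Set.range g), Subgroup.closure (Set.range g)⁆ : Subgroup G)) :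
    DependentOn ((List.ofFn g).prod * t) g := by
  set T : Subgroup G := Subgroup.closure (Set.range g) with hT
  have hmem : ∀ l, g l ∈ T := fun l => Subgroup.subset_closure ⟨l, rfl⟩
  let g' : Fin n → T := fun l => ⟨g l, hmem l⟩
  have hgen : Subgroup.closure (Set.range g') = ⊤ := by
    have h1 : (Subgroup.closure (Set.range g')).map T.subtype = T := by
      rw [MonoidHom.map_closure, ← Set.range_comp]
      rfl
    apply Subgroup.map_injective T.subtype_injective
    rw [h1, ← MonoidHom.range_eq_map, Subgroup.range_subtype]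
  have ht' : ∃ t' : T, t' ∈ commutator T ∧ (t' : G) = t := by
    have h2 : (commutator T).map T.subtype = ⁅T, T⁆ := by
      rw [commutator_def, Subgroup.map_commutator, ← MonoidHom.range_eq_map,
        Subgroup.range_subtype]
    rw [← h2] at ht
    obtain ⟨t', h3, h4⟩ := ht
    exact ⟨t', h3, h4⟩
  obtain ⟨t', h3, h4⟩ := ht'
  obtain ⟨c, hc⟩ := (nil_main g' hgen ((List.ofFn g').prod * t')).2 (by
    rw [inv_mul_cancel_left]; exact h3)
  refine ⟨fun l => c l, ?_⟩
  have h5 : T.subtype ((List.ofFn g').prod * t') = (List.ofFn g).prod * t := by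
    rw [map_mul, map_list_prod, List.map_ofFn]
    congr 1
  have h6 := congrArg T.subtype hc
  rw [h5, dep_map] at h6
  exact h6

/-- **A full coset**, for groups with an abelian normal subgroup of prime power index and elements
which generate the group modulo commutators and `p`-th powers -/
theorem p_core {p : ℕ} [Fact p.Prime] {G : Type u} [Group G] (A : Subgroup G) [hAn : A.Normal]
    (hc : ∀ x ∈ A, ∀ y ∈ A, x * y = y * x) {m : ℕ} (hm : A.index = p ^ m) {n : ℕ}
    (g : Fin n → G) (hg : Subgroup.closure (Set.range g) ⊔ Phi p G = ⊤) {a : G}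
    (ha : (List.ofFn g).prod⁻¹ * a ∈ commutator G) : DependentOn a g := by
  have hfin : Finite (G ⧸ A) := by
    apply Nat.finite_of_card_ne_zero
    change A.index ≠ 0
    rw [hm]
    exact pow_ne_zero _ (Fact.out : p.Prime).ne_zero
  have hp : IsPGroup p (G ⧸ A) := IsPGroup.of_card hm
  have hnilA : Group.IsNilpotent (G ⧸ A) := hp.isNilpotent
  obtain ⟨c, hcA⟩ := Subgroup.nilpotent_iff_lowerCentralSeries.1 hnilA
  have hcA' : Subgroup.lowerCentralSeries (⊤ : Subgroup G) c ≤ A := by
    have h4 := Subgroup.map_lowerCentralSeries (⊤ : Subgroup G) (QuotientGroup.mk' A) c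
    rw [Subgroup.map_top_of_surjective _ (QuotientGroup.mk'_surjective A), hcA] at h4
    intro x hx
    apply (QuotientGroup.eq_one_iff x).1
    have h5 : QuotientGroup.mk' A x ∈
        (Subgroup.lowerCentralSeries (⊤ : Subgroup G) c).map (QuotientGroup.mk' A) :=
      Subgroup.mem_map_of_mem _ hx
    rw [h4] at h5
    exact Subgroup.mem_bot.1 h5
  set K : Subgroup G := ⁅A, (⊤ : Subgroup G)⁆ with hK
  have hKn : K.Normal := by rw [hK]; infer_instance
  have hKc : Subgroup.lowerCentralSeries (⊤ : Subgroup G) (c + 1) ≤ K := by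
    rw [Subgroup.lowerCentralSeries_succ]
    exact Subgroup.commutator_mono hcA' le_rfl
  have hnil : Group.IsNilpotent (G ⧸ K) := nil_quot K (c + 1) hKc
  have hgA : Subgroup.closure (Set.range g) ⊔ A = ⊤ := gen_p_mod A hm _ hg
  have hZ : A.map (QuotientGroup.mk' K) ≤ Subgroup.center (G ⧸ K) := by
    rintro _ ⟨x, hx, rfl⟩
    rw [Subgroup.mem_center_iff]
    intro q
    obtain ⟨q, rfl⟩ := QuotientGroup.mk'_surjective K q
    have h1 : ⁅x, q⁆ ∈ K := Subgroup.commutator_mem_commutator hx (Subgroup.mem_top q)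
    have h2 : QuotientGroup.mk' K ⁅x, q⁆ = 1 := (QuotientGroup.eq_one_iff _).2 h1
    rw [map_commutatorElement] at h2
    exact (commutatorElement_eq_one_iff_mul_comm.1 h2).symm
  have hrange : (Set.range fun i => QuotientGroup.mk' K (g i)) =
      QuotientGroup.mk' K '' Set.range g := by
    rw [← Set.range_comp]; rfl
  have hsup : Subgroup.closure (Set.range fun i => QuotientGroup.mk' K (g i)) ⊔
      A.map (QuotientGroup.mk' K) = ⊤ := by
    rw [hrange, ← MonoidHom.map_closure, ← Subgroup.map_sup, hgA,
      Subgroup.map_top_of_surjective _ (QuotientGroup.mk'_surjective K)]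
  have hcomm := comm_le_of_sup_center' _ _ hZ hsup
  have ht : QuotientGroup.mk' K ((List.ofFn g).prod⁻¹ * a) ∈
      (⁅Subgroup.closure (Set.range fun i => QuotientGroup.mk' K (g i)),
      Subgroup.closure (Set.range fun i => QuotientGroup.mk' K (g i))⁆ : Subgroup (G ⧸ K)) :=
    hcomm (map_comm_mem _ ha)
  obtain ⟨c', hc'⟩ := dep_nil_sub' (fun i => QuotientGroup.mk' K (g i)) ht
  have h0 : (List.ofFn fun i => QuotientGroup.mk' K (g i)).prod *
      QuotientGroup.mk' K ((List.ofFn g).prod⁻¹ * a) = QuotientGroup.mk' K a := by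
    rw [map_mul, map_inv, map_list_prod, List.map_ofFn]
    exact mul_inv_cancel_left _ _
  rw [h0] at hc'
  choose d hd using fun i => QuotientGroup.mk'_surjective K (c' i)
  have h7 : (List.ofFn fun i => d i * g i * (d i)⁻¹).prod⁻¹ * a ∈ K := by
    rw [← QuotientGroup.eq_one_iff]
    change QuotientGroup.mk' K _ = 1
    rw [map_mul, map_inv, dep_map, hc']
    simp only [hd]
    exact inv_mul_cancel _
  have h8 : Subgroup.closure (Set.range fun l => d l * g l * (d l)⁻¹) ⊔ A = ⊤ := by
    apply gen_p_mod A hm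
    rw [eq_top_iff, ← hg]
    exact sup_le (closure_conj_le d g _ le_sup_left) le_sup_right
  have h9 := ab_step A hc (fun l => d l * g l * (d l)⁻¹) h8 h7
  rw [mul_inv_cancel_left] at h9
  exact dep_conj' d g a h9

/-- lifting dependence from the image of a homomorphism -/
theorem lift_range {S : Type u} [Group S] {N : Type v} [Group N] (f : S →* N) {n : ℕ}
    {g : Fin n → S} {a : S}
    (h : DependentOn (f.rangeRestrict a) fun i => f.rangeRestrict (g i)) :
    ∃ c : Fin n → S, f a = f (List.ofFn fun i => c i * g i * (c i)⁻¹).prod := by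
  obtain ⟨c, hc⟩ := h
  choose d hd using fun i => f.rangeRestrict_surjective (c i)
  refine ⟨d, ?_⟩
  have h3 : f.rangeRestrict a = f.rangeRestrict (List.ofFn fun i => d i * g i * (d i)⁻¹).prod := by
    rw [hc, dep_map]
    simp only [hd]
  exact congrArg Subtype.val h3

theorem range_coset {S : Type u} [Group S] {N : Type v} [Group N] (f : S →* N) {n : ℕ}
    {g : Fin n → S} {a : S} (ha : (List.ofFn g).prod⁻¹ * a ∈ commutator S) :
    (List.ofFn fun i => f.rangeRestrict (g i)).prod⁻¹ * f.rangeRestrict a ∈
      commutator f.range := by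
  have h6 := map_comm_mem f.rangeRestrict ha
  rw [map_mul, map_inv, map_list_prod, List.map_ofFn] at h6
  exact h6

theorem range_gen {S : Type u} [Group S] {N : Type v} [Group N] (f : S →* N) {n : ℕ}
    (g : Fin n → S) (K : Subgroup S) (L : Subgroup f.range)
    (hKL : K.map f.rangeRestrict ≤ L)
    (hg : Subgroup.closure (Set.range g) ⊔ K = ⊤) :
    Subgroup.closure (Set.range fun i => f.rangeRestrict (g i)) ⊔ L = ⊤ := by
  have h5 : (Set.range fun i => f.rangeRestrict (g i)) = f.rangeRestrict '' Set.range g := by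
    rw [← Set.range_comp]; rfl
  rw [h5, ← MonoidHom.map_closure, eq_top_iff,
    ← Subgroup.map_top_of_surjective _ f.rangeRestrict_surjective, ← hg, Subgroup.map_sup]
  exact sup_le_sup le_rfl hKL

/-- images in groups with an abelian term of the lower central series -/
theorem dep_lcs {S : Type u} [Group S] {n : ℕ} (g : Fin n → S)
    (hg : Subgroup.closure (Set.range g) ⊔ commutator S = ⊤) {a : S}
    (ha : (List.ofFn g).prod⁻¹ * a ∈ commutator S) {N : Type v} [Group N] (c : ℕ)
    (hc : ∀ x ∈ Subgroup.lowerCentralSeries (⊤ : Subgroup N) c,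
      ∀ y ∈ Subgroup.lowerCentralSeries (⊤ : Subgroup N) c, x * y = y * x)
    (f : S →* N) : ∃ c : Fin n → S, f a = f (List.ofFn fun i => c i * g i * (c i)⁻¹).prod := by
  apply lift_range
  apply dep_core c ?_ _ (range_gen f g _ _ ?_ hg) (range_coset f ha)
  · have h1 : (Subgroup.lowerCentralSeries (⊤ : Subgroup f.range) c).map f.range.subtype ≤
        Subgroup.lowerCentralSeries (⊤ : Subgroup N) c := by
      rw [Subgroup.map_lowerCentralSeries]
      exact Subgroup.lowerCentralSeries_mono c le_top
    intro x hx y hy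
    apply Subtype.ext
    exact hc _ (h1 (Subgroup.mem_map_of_mem _ hx)) _ (h1 (Subgroup.mem_map_of_mem _ hy))
  · rintro _ ⟨x, hx, rfl⟩
    exact map_comm_mem _ hx

/-- images in groups with an abelian normal subgroup of prime power index -/
theorem dep_ab_p {p : ℕ} [hp : Fact p.Prime] {S : Type u} [Group S] {n : ℕ} (g : Fin n → S)
    (hg : Subgroup.closure (Set.range g) ⊔ Phi p S = ⊤) {a : S}
    (ha : (List.ofFn g).prod⁻¹ * a ∈ commutator S) {N : Type v} [Group N] (A : Subgroup N)
    [hAn : A.Normal] (hc : ∀ x ∈ A, ∀ y ∈ A, x * y = y * x) {m : ℕ} (hm : A.index = p ^ m)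
    (f : S →* N) : ∃ c : Fin n → S, f a = f (List.ofFn fun i => c i * g i * (c i)⁻¹).prod := by
  apply lift_range
  have h1 : A.relIndex f.range ∣ p ^ m := by
    rw [← hm]
    exact Subgroup.relIndex_dvd_index_of_normal A f.range
  obtain ⟨k, -, hk⟩ := (Nat.dvd_prime_pow hp.out).1 h1
  refine p_core (A.subgroupOf f.range) ?_ hk _ (range_gen f g _ _ ?_ hg) (range_coset f ha)
  · intro x hx y hy
    apply Subtype.ext
    exact hc _ (Subgroup.mem_subgroupOf.1 hx) _ (Subgroup.mem_subgroupOf.1 hy)
  · rintro _ ⟨x, hx, rfl⟩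
    exact map_phi_mem _ hx

end Pool.Agent.H408.ND
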