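import Pool.Agent.H408.ND.Nil

/-!
Generation of nilpotent groups and of finite `p`-groups modulo commutators and `p`-th powers.
-/

set_option autoImplicit false

namespace Pool.Agent.H408.ND

open scoped commutatorElement

universe u v

theorem comm_le_of_sup_center {G : Type*} [Group G] (H Z : Subgroup G)
    (hZ : Z ≤ Subgroup.center G) (h : H ⊔ Z = ⊤) : commutator G ≤ H := by
  have hn : Z.Normal := by
    refine ⟨fun z hz g => ?_⟩
    have := Subgroup.mem_center_iff.1 (hZ hz) g
    rw [this, mul_inv_cancel_right]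
    exact hz
  have key : ∀ x : G, ∃ y ∈ H, ∃ z ∈ Z, y * z = x := by
    intro x
    have hx : x ∈ H ⊔ Z := by rw [h]; trivial
    exact Subgroup.mem_sup_of_normal_right.1 hx
  rw [commutator_eq_closure, Subgroup.closure_le]
  rintro _ ⟨x, y, rfl⟩
  obtain ⟨x, hx, z, hz, rfl⟩ := key x
  obtain ⟨y, hy, w, hw, rfl⟩ := key y
  have hz' := Subgroup.mem_center_iff.1 (hZ hz)
  have hw' := Subgroup.mem_center_iff.1 (hZ hw)
  have e : ⁅x * z, y * w⁆ = ⁅x, y⁆ := by
    simp only [commutatorElement_def, mul_inv_rev]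
    calc x * z * (y * w) * (z⁻¹ * x⁻¹) * (w⁻¹ * y⁻¹)
        = x * (z * (y * w)) * z⁻¹ * x⁻¹ * w⁻¹ * y⁻¹ := by group
      _ = x * ((y * w) * z) * z⁻¹ * x⁻¹ * w⁻¹ * y⁻¹ := by rw [← hz' (y * w)]
      _ = x * y * (w * x⁻¹) * w⁻¹ * y⁻¹ := by group
      _ = x * y * (x⁻¹ * w) * w⁻¹ * y⁻¹ := by rw [← hw' x⁻¹]
      _ = x * y * x⁻¹ * y⁻¹ := by group
  rw [e]
  exact H.mul_mem (H.mul_mem (H.mul_mem hx hy) (H.inv_mem hx)) (H.inv_mem hy)

theorem gen_aux (m : ℕ) : ∀ (G : Type u) [Group G],
    Subgroup.lowerCentralSeries (⊤ : Subgroup G) m = ⊥ →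
    ∀ H : Subgroup G, H ⊔ commutator G = ⊤ → H = ⊤ := by
  induction m with
  | zero =>
    intro G _ h H _
    rw [Subgroup.lowerCentralSeries_zero] at h
    rw [eq_top_iff, h]
    exact bot_le
  | succ m ih =>
    intro G _ h H hH
    rcases m with _ | k
    · rw [zero_add, Subgroup.top_lowerCentralSeries_one] at h
      rw [h, sup_bot_eq] at hH
      exact hH
    · set K : Subgroup G := Subgroup.lowerCentralSeries (⊤ : Subgroup G) (k + 1) with hK
      have hKc : K ≤ Subgroup.center G := by
        have h3 : ⁅K, (⊤ : Subgroup G)⁆ = ⊥ := h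
        rw [Subgroup.commutator_eq_bot_iff_le_centralizer] at h3
        intro x hx
        have := h3 hx
        rw [Subgroup.mem_centralizer_iff] at this
        rw [Subgroup.mem_center_iff]
        intro y
        exact this y (Subgroup.mem_top y)
      have hKn : K.Normal := by
        rw [hK]; infer_instance
      have hQ : Subgroup.lowerCentralSeries (⊤ : Subgroup (G ⧸ K)) (k + 1) = ⊥ := by
        have h4 := Subgroup.map_lowerCentralSeries (⊤ : Subgroup G) (QuotientGroup.mk' K) (k + 1)
        rw [Subgroup.map_top_of_surjective _ (QuotientGroup.mk'_surjective K)] at h4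
        rw [← h4, ← hK, QuotientGroup.map_mk'_self]
      have h5 := ih (G ⧸ K) hQ (H.map (QuotientGroup.mk' K)) (by
        rw [eq_top_iff, ← Subgroup.map_top_of_surjective _ (QuotientGroup.mk'_surjective K), ← hH,
          Subgroup.map_sup]
        refine sup_le_sup le_rfl ?_
        rintro _ ⟨x, hx, rfl⟩
        exact map_comm_mem _ hx)
      have h6 : H ⊔ K = ⊤ := by
        have h7 := Subgroup.comap_map_eq (QuotientGroup.mk' K) H
        rw [h5, Subgroup.comap_top, QuotientGroup.ker_mk'] at h7
        exact h7.symm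
      have h8 := comm_le_of_sup_center H K hKc h6
      rw [sup_eq_left.2 h8] at hH
      exact hH

/-- a subgroup which generates a nilpotent group modulo commutators is the whole group -/
theorem nil_gen {G : Type u} [Group G] [Group.IsNilpotent G] (H : Subgroup G)
    (hH : H ⊔ commutator G = ⊤) : H = ⊤ := by
  obtain ⟨m, hm⟩ := Subgroup.nilpotent_iff_lowerCentralSeries.1
    (inferInstance : Group.IsNilpotent G)
  exact gen_aux m G hm H hH

/-- the subgroup generated by all commutators and all `p`-th powers -/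
def Phi (p : ℕ) (G : Type*) [Group G] : Subgroup G :=
  commutator G ⊔ Subgroup.closure (Set.range fun x : G => x ^ p)

theorem map_phi_mem {p : ℕ} {G H : Type*} [Group G] [Group H] (f : G →* H) {x : G}
    (hx : x ∈ Phi p G) : f x ∈ Phi p H := by
  have h1 : (Phi p G).map f ≤ Phi p H := by
    unfold Phi
    rw [Subgroup.map_sup]
    refine sup_le_sup ?_ ?_
    · rintro _ ⟨x, hx, rfl⟩
      exact map_comm_mem _ hx
    · rw [MonoidHom.map_closure]
      refine Subgroup.closure_mono ?_
      rintro _ ⟨_, ⟨x, rfl⟩, rfl⟩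
      exact ⟨f x, by simp⟩
  exact h1 (Subgroup.mem_map_of_mem f hx)

/-- a subgroup which generates a finite `p`-group modulo commutators and `p`-th powers is the
whole group -/
theorem p_gen {p : ℕ} [Fact p.Prime] {G : Type u} [Group G] [Finite G] (hp : IsPGroup p G)
    (H : Subgroup G) (hH : H ⊔ Phi p G = ⊤) : H = ⊤ := by
  have hnil : Group.IsNilpotent G := hp.isNilpotent
  apply nil_gen
  set L : Subgroup G := H ⊔ commutator G with hL
  have hc : commutator G ≤ L := le_sup_right
  have hLn : L.Normal := Subgroup.Normal.of_commutator_le G hc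
  have h0 : L ⊔ Subgroup.closure (Set.range fun x : G => x ^ p) = ⊤ := by
    rw [hL, sup_assoc]; exact hH
  -- every element is congruent to a `p`-th power modulo `L`
  have h1 : ∀ x : G ⧸ L, ∃ y : G ⧸ L, y ^ p = x := by
    have hcomm : ∀ a b : G ⧸ L, a * b = b * a := by
      intro a b
      obtain ⟨a, rfl⟩ := QuotientGroup.mk'_surjective L a
      obtain ⟨b, rfl⟩ := QuotientGroup.mk'_surjective L b
      rw [← commutatorElement_eq_one_iff_mul_comm, ← map_commutatorElement]
      apply (QuotientGroup.eq_one_iff _).2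
      exact hc (Subgroup.commutator_mem_commutator (Subgroup.mem_top _) (Subgroup.mem_top _))
    let R : Subgroup (G ⧸ L) :=
      { carrier := {x | ∃ y : G ⧸ L, y ^ p = x}
        mul_mem' := by
          rintro _ _ ⟨a, rfl⟩ ⟨b, rfl⟩
          exact ⟨a * b, (Commute.mul_pow (hcomm a b) p)⟩
        one_mem' := ⟨1, one_pow _⟩
        inv_mem' := by
          rintro _ ⟨a, rfl⟩
          exact ⟨a⁻¹, inv_pow _ _⟩ }
    have h2 : (⊤ : Subgroup G).map (QuotientGroup.mk' L) ≤ R := by
      rw [← h0, Subgroup.map_sup, QuotientGroup.map_mk'_self, bot_sup_eq, MonoidHom.map_closure,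
        Subgroup.closure_le]
      rintro _ ⟨_, ⟨x, rfl⟩, rfl⟩
      exact ⟨QuotientGroup.mk' L x, by simp⟩
    rw [Subgroup.map_top_of_surjective _ (QuotientGroup.mk'_surjective L)] at h2
    intro x
    exact h2 (Subgroup.mem_top x)
  have h3 : ∀ (k : ℕ) (x : G ⧸ L), ∃ y : G ⧸ L, y ^ (p ^ k) = x := by
    intro k
    induction k with
    | zero => intro x; exact ⟨x, by simp⟩
    | succ k ih =>
      intro x
      obtain ⟨y, rfl⟩ := ih x
      obtain ⟨z, rfl⟩ := h1 y
      exact ⟨z, by rw [pow_succ', pow_mul]⟩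
  obtain ⟨k, hk⟩ := IsPGroup.iff_card.1 (hp.to_quotient L)
  have h4 : ∀ x : G ⧸ L, x = 1 := by
    intro x
    obtain ⟨y, rfl⟩ := h3 k x
    rw [← hk]
    exact pow_card_eq_one'
  rw [eq_top_iff]
  intro x _
  exact (QuotientGroup.eq_one_iff x).1 (h4 (x : G ⧸ L))

/-- images under homomorphisms to nilpotent groups, for elements generating modulo commutators -/
theorem dep_nil {S : Type u} [Group S] {n : ℕ} (g : Fin n → S)
    (hg : Subgroup.closure (Set.range g) ⊔ commutator S = ⊤) {a : S}
    (ha : (List.ofFn g).prod⁻¹ * a ∈ commutator S) {N : Type v} [Group N] [Group.IsNilpotent N]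
    (f : S →* N) : ∃ c : Fin n → S, f a = f (List.ofFn fun i => c i * g i * (c i)⁻¹).prod := by
  have h1 : Subgroup.closure (Set.range fun i => f.rangeRestrict (g i)) = ⊤ := by
    apply nil_gen
    have h5 : (Set.range fun i => f.rangeRestrict (g i)) = f.rangeRestrict '' Set.range g := by
      rw [← Set.range_comp]; rfl
    rw [h5, ← MonoidHom.map_closure, eq_top_iff,
      ← Subgroup.map_top_of_surjective _ f.rangeRestrict_surjective, ← hg, Subgroup.map_sup]
    refine sup_le_sup le_rfl ?_
    rintro _ ⟨x, hx, rfl⟩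
    exact map_comm_mem _ hx
  have h2 : (List.ofFn fun i => f.rangeRestrict (g i)).prod⁻¹ * f.rangeRestrict a ∈
      commutator f.range := by
    have h6 := map_comm_mem f.rangeRestrict ha
    rw [map_mul, map_inv, map_list_prod, List.map_ofFn] at h6
    exact h6
  obtain ⟨c, hc⟩ := (nil_main _ h1 _).2 h2
  choose d hd using fun i => f.rangeRestrict_surjective (c i)
  refine ⟨d, ?_⟩
  have h3 : f.rangeRestrict a = f.rangeRestrict (List.ofFn fun i => d i * g i * (d i)⁻¹).prod := by
    rw [hc, dep_map]
    simp only [hd]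
  exact congrArg Subtype.val h3

/-- images under homomorphisms to finite `p`-groups, for elements generating modulo commutators and
`p`-th powers -/
theorem dep_p {p : ℕ} [Fact p.Prime] {S : Type u} [Group S] {n : ℕ} (g : Fin n → S)
    (hg : Subgroup.closure (Set.range g) ⊔ Phi p S = ⊤) {a : S}
    (ha : (List.ofFn g).prod⁻¹ * a ∈ commutator S) {N : Type v} [Group N] [Finite N]
    (hN : IsPGroup p N)
    (f : S →* N) : ∃ c : Fin n → S, f a = f (List.ofFn fun i => c i * g i * (c i)⁻¹).prod := by
  have hN' : IsPGroup p f.range := hN.to_subgroup _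
  have hnil : Group.IsNilpotent f.range := hN'.isNilpotent
  have h1 : Subgroup.closure (Set.range fun i => f.rangeRestrict (g i)) = ⊤ := by
    apply p_gen hN'
    have h5 : (Set.range fun i => f.rangeRestrict (g i)) = f.rangeRestrict '' Set.range g := by
      rw [← Set.range_comp]; rfl
    rw [h5, ← MonoidHom.map_closure, eq_top_iff,
      ← Subgroup.map_top_of_surjective _ f.rangeRestrict_surjective, ← hg, Subgroup.map_sup]
    refine sup_le_sup le_rfl ?_
    rintro _ ⟨x, hx, rfl⟩
    exact map_phi_mem _ hx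
  have h2 : (List.ofFn fun i => f.rangeRestrict (g i)).prod⁻¹ * f.rangeRestrict a ∈
      commutator f.range := by
    have h6 := map_comm_mem f.rangeRestrict ha
    rw [map_mul, map_inv, map_list_prod, List.map_ofFn] at h6
    exact h6
  obtain ⟨c, hc⟩ := (nil_main _ h1 _).2 h2
  choose d hd using fun i => f.rangeRestrict_surjective (c i)
  refine ⟨d, ?_⟩
  have h3 : f.rangeRestrict a = f.rangeRestrict (List.ofFn fun i => d i * g i * (d i)⁻¹).prod := by
    rw [hc, dep_map]
    simp only [hd]
  exact congrArg Subtype.val h3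

end Pool.Agent.H408.ND
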