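import Pool.Agent.H408.ND.Qm

/-!
Homological facts about free groups and the subgroups in Stallings' conjecture.
-/

set_option autoImplicit false
open scoped TensorProduct

namespace Pool.Agent.H408.ND

open scoped commutatorElement

universe u v

/-- the abelianization of a free group is a free abelian group -/
theorem exists_ab_equiv (S : Type u) [Group S] [IsFreeGroup S] :
    ∃ ι : Type u, Nonempty (Additive (Abelianization S) ≃+ (ι →₀ ℤ)) := by
  refine ⟨IsFreeGroup.Generators S, ⟨?_⟩⟩
  have e1 : Abelianization S ≃* Abelianization (FreeGroup (IsFreeGroup.Generators S)) :=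
    (IsFreeGroup.toFreeGroup S).abelianizationCongr
  exact (MulEquiv.toAdditive e1).trans (FreeAbelianGroup.equivFinsupp (IsFreeGroup.Generators S))

theorem exists_int_hom {S : Type u} [Group S] [IsFreeGroup S] {x : S} (hx : x ∉ commutator S) :
    ∃ f : S →* Multiplicative ℤ, f x ≠ 1 := by
  obtain ⟨ι, ⟨e⟩⟩ := exists_ab_equiv S
  have h1 : e (Additive.ofMul (Abelianization.of x)) ≠ 0 := by
    intro h
    apply hx
    rw [← Abelianization.ker_of, MonoidHom.mem_ker]
    have h2 := (map_eq_zero_iff e e.injective).1 h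
    exact h2
  obtain ⟨i, hi⟩ := Finsupp.ne_iff.1 h1
  refine ⟨⟨⟨fun y => Multiplicative.ofAdd (e (Additive.ofMul (Abelianization.of y)) i), ?_⟩, ?_⟩, ?_⟩
  · simp
  · intro y z
    dsimp only
    rw [map_mul, ofMul_mul, map_add, Finsupp.add_apply, ofAdd_add]
  · exact fun h => hi h

theorem exists_p_hom {p : ℕ} (hp : p.Prime) {S : Type u} [Group S] [IsFreeGroup S] {x : S}
    (hx : x ∉ commutator S) : ∃ (k : ℕ) (f : S →* Multiplicative (ZMod (p ^ k))), f x ≠ 1 := by
  obtain ⟨f, hf⟩ := exists_int_hom hx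
  set m : ℤ := Multiplicative.toAdd (f x) with hm
  have hm0 : m ≠ 0 := fun h => hf h
  refine ⟨m.natAbs, (AddMonoidHom.toMultiplicative
    (Int.castAddHom (ZMod (p ^ m.natAbs)))).comp f, ?_⟩
  intro h
  have h1 : ((m : ℤ) : ZMod (p ^ m.natAbs)) = 0 := h
  rw [ZMod.intCast_zmod_eq_zero_iff_dvd] at h1
  have h2 := Int.natAbs_dvd_natAbs.2 h1
  rw [Int.natAbs_natCast] at h2
  have h3 := Nat.le_of_dvd (Int.natAbs_pos.2 hm0) h2
  have h4 := Nat.lt_pow_self hp.one_lt (n := m.natAbs)
  omega

/-- divisibility by a prime in free abelian groups -/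
theorem exists_prim {p : ℕ} (hp : p.Prime) {ι : Type u} (i₀ : ι) (N : ℕ) :
    ∀ v : ι →₀ ℤ, v i₀ ≠ 0 → (v i₀).natAbs ≤ N →
      ∃ (j : ℕ) (w : ι →₀ ℤ) (i : ι), v = p ^ j • w ∧ ¬ (p : ℤ) ∣ w i := by
  induction N with
  | zero =>
    intro v h1 h2
    omega
  | succ N ih =>
    intro v h1 h2
    by_cases h : ∀ i, (p : ℤ) ∣ v i
    · let v' : ι →₀ ℤ := v.mapRange (fun t => t / (p : ℤ)) (by simp)
      have hv : v = p • v' := by
        ext i
        simp only [v', Finsupp.smul_apply, Finsupp.mapRange_apply, nsmul_eq_mul]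
        exact (Int.mul_ediv_cancel' (h i)).symm
      have h3 : v i₀ = p * v' i₀ := by
        conv_lhs => rw [hv]
        simp
      have h4 : v' i₀ ≠ 0 := by
        intro h5
        rw [h5, mul_zero] at h3
        exact h1 h3
      have h5 : (v' i₀).natAbs ≤ N := by
        have h6 : (v i₀).natAbs = p * (v' i₀).natAbs := by
          rw [h3, Int.natAbs_mul, Int.natAbs_natCast]
        have h7 := hp.two_le
        have h8 : 0 < (v' i₀).natAbs := Int.natAbs_pos.2 h4
        nlinarith
      obtain ⟨j, w, i, hw, hi⟩ := ih v' h4 h5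
      refine ⟨j + 1, w, i, ?_, hi⟩
      rw [pow_succ', mul_smul, ← hw]
      exact hv
    · push Not at h
      obtain ⟨i, hi⟩ := h
      exact ⟨0, v, i, by simp, hi⟩

/-- If the inclusion of a subgroup `S` of a free group induces an injective map of the first
homology groups modulo `p`, then it induces an injective map of the integral first homology
groups. -/
theorem h1_inj {p : ℕ} (hp : p.Prime) {F : Type u} [Group F] [IsFreeGroup F] (S : Subgroup F)
    (hS : Function.Injective (LinearMap.rTensor (ZMod p)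
        (AddMonoidHom.toIntLinearMap (MonoidHom.toAdditive (Abelianization.map S.subtype)))))
    {x : S} (hx : (x : F) ∈ commutator F) : x ∈ commutator S := by
  by_contra hcon
  have : IsFreeGroup S := subgroupIsFreeOfIsFree S
  obtain ⟨ι, ⟨e⟩⟩ := exists_ab_equiv S
  obtain ⟨κ, ⟨e'⟩⟩ := exists_ab_equiv F
  set α := AddMonoidHom.toIntLinearMap (MonoidHom.toAdditive (Abelianization.map S.subtype))
    with hα
  have h1 : e (Additive.ofMul (Abelianization.of x)) ≠ 0 := by
    intro h
    apply hcon
    rw [← Abelianization.ker_of, MonoidHom.mem_ker]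
    exact (map_eq_zero_iff e e.injective).1 h
  obtain ⟨i₀, hi₀⟩ := Finsupp.ne_iff.1 h1
  obtain ⟨j, w, i, hw, hi⟩ := exists_prim hp i₀ _ _ hi₀ le_rfl
  set y := e.symm w with hy
  have h2 : Additive.ofMul (Abelianization.of x) = p ^ j • y := by
    apply e.injective
    rw [map_nsmul, hy, AddEquiv.apply_symm_apply]
    exact hw
  have h3 : α (Additive.ofMul (Abelianization.of x)) = 0 := by
    have h4 : α (Additive.ofMul (Abelianization.of x)) =
        Additive.ofMul (Abelianization.of (x : F)) := rfl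
    rw [h4]
    have h5 : Abelianization.of (x : F) = 1 := by
      rw [← Abelianization.ker_of] at hx
      exact hx
    rw [h5]
    rfl
  have h6 : α y = 0 := by
    rw [h2, map_nsmul] at h3
    apply e'.injective
    have h7 := congrArg e' h3
    rw [map_nsmul, map_zero] at h7
    rw [map_zero]
    have h8 : p ^ j ≠ 0 := pow_ne_zero _ hp.ne_zero
    exact (smul_eq_zero.1 h7).resolve_left h8
  have h9 : (y ⊗ₜ[ℤ] (1 : ZMod p)) = 0 := by
    apply hS
    rw [LinearMap.rTensor_tmul, h6, TensorProduct.zero_tmul, map_zero]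
  let c : Additive (Abelianization S) →ₗ[ℤ] ℤ :=
    (Finsupp.lapply i : (ι →₀ ℤ) →ₗ[ℤ] ℤ).comp e.toAddMonoidHom.toIntLinearMap
  have h10 := congrArg (fun t => TensorProduct.lid ℤ (ZMod p) (LinearMap.rTensor (ZMod p) c t)) h9
  simp only [LinearMap.rTensor_tmul, TensorProduct.lid_tmul, map_zero] at h10
  have h11 : c y = w i := by
    simp [c, hy]
  rw [h11] at h10
  have h12 : ((w i : ℤ) : ZMod p) = 0 := by
    simpa using h10
  rw [ZMod.intCast_zmod_eq_zero_iff_dvd] at h12
  exact hi h12

/-- in an abelian group the only product of conjugates is the product -/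
theorem dep_comm {A : Type u} [CommGroup A] {n : ℕ} {a : A} {g : Fin n → A}
    (h : DependentOn a g) : a = (List.ofFn g).prod := by
  obtain ⟨c, hc⟩ := h
  rw [hc]
  congr 2
  funext i
  rw [mul_comm (c i), mul_inv_cancel_right]

end Pool.Agent.H408.ND
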