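import Pool.Agent.H408.ND.Comm
import Pool.Agent.H408.ND.Hom

/-!
Products of conjugacy classes of free groups are not closed in the pro-nilpotent topology.
-/

set_option autoImplicit false
open scoped TensorProduct

namespace Pool.Agent.H408.ND

open scoped commutatorElement

universe v

/-- conjugating the given elements does not change dependence -/
theorem dep_conj {S : Type} [Group S] {n : ℕ} (e g : Fin n → S) (a : S) :
    DependentOn a (fun l => e l * g l * (e l)⁻¹) ↔ DependentOn a g := by
  constructor
  · rintro ⟨c, rfl⟩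
    refine ⟨fun l => c l * e l, ?_⟩
    congr 2
    funext l
    group
  · rintro ⟨c, rfl⟩
    refine ⟨fun l => c l * (e l)⁻¹, ?_⟩
    congr 2
    funext l
    group

/-- elements of the coset of the commutator subgroup of the subgroup generated by conjugates of the
given elements are dependent in all nilpotent images -/
theorem dep_nil_sub {S : Type} [Group S] {n : ℕ} (e g : Fin n → S) {t : S}
    (ht : t ∈ (⁅Subgroup.closure (Set.range fun l => e l * g l * (e l)⁻¹),
      Subgroup.closure (Set.range fun l => e l * g l * (e l)⁻¹)⁆ : Subgroup S))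
    {N : Type v} [Group N] [Group.IsNilpotent N] (f : S →* N) :
    ∃ c : Fin n → S, f ((List.ofFn fun l => e l * g l * (e l)⁻¹).prod * t) =
      f (List.ofFn fun l => c l * g l * (c l)⁻¹).prod := by
  set g' : Fin n → S := fun l => e l * g l * (e l)⁻¹ with hg'
  set T : Subgroup S := Subgroup.closure (Set.range g') with hT
  have hmem : ∀ l, g' l ∈ T := fun l => Subgroup.subset_closure ⟨l, rfl⟩
  let g'' : Fin n → T := fun l => ⟨g' l, hmem l⟩
  have hgen : Subgroup.closure (Set.range g'') = ⊤ := by
    have h1 : (Subgroup.closure (Set.range g'')).map T.subtype = T := by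
      rw [MonoidHom.map_closure, ← Set.range_comp]
      rfl
    apply Subgroup.map_injective T.subtype_injective
    rw [h1, ← MonoidHom.range_eq_map, Subgroup.range_subtype]
  have ht' : ∃ t' : T, t' ∈ commutator T ∧ (t' : S) = t := by
    have h2 : (commutator T).map T.subtype = ⁅T, T⁆ := by
      rw [commutator_def, Subgroup.map_commutator, ← MonoidHom.range_eq_map,
        Subgroup.range_subtype]
    rw [← h2] at ht
    obtain ⟨t', h3, h4⟩ := ht
    exact ⟨t', h3, h4⟩
  obtain ⟨t', h3, h4⟩ := ht'
  obtain ⟨c, hc⟩ := dep_nil g'' (by rw [hgen, top_sup_eq])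
    (a := (List.ofFn g'').prod * t') (by rw [inv_mul_cancel_left]; exact h3) (f.comp T.subtype)
  refine ⟨fun l => c l * e l, ?_⟩
  have h5 : T.subtype ((List.ofFn g'').prod * t') = (List.ofFn g').prod * t := by
    rw [map_mul, map_list_prod, List.map_ofFn]
    congr 1
  have h6 : T.subtype (List.ofFn fun l => c l * g'' l * (c l)⁻¹).prod =
      (List.ofFn fun l => (c l * e l : S) * g l * (c l * e l : S)⁻¹).prod := by
    rw [dep_map]
    congr 2
    funext l
    simp only [g'', g', Subgroup.subtype_apply]
    group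
  rw [MonoidHom.comp_apply, MonoidHom.comp_apply, h5, h6] at hc
  exact hc

/-- **Products of two nontrivial conjugacy classes of a nonabelian free group are not closed in the
pro-nilpotent topology**, for subgroups `S` of a free group `F` and products of conjugacy classes
of `F` -/
theorem exists_sep {F : Type} [Group F] [IsFreeGroup F] (S : Subgroup F)
    (hS : ¬ ∀ x y : S, x * y = y * x) {n : ℕ}
    (g : Fin n → S) {i j : Fin n} (hij : i ≠ j) (hi : g i ≠ 1) (hj : g j ≠ 1) :
    ∃ a : S, ¬ DependentOn (a : F) (fun l => (g l : F)) ∧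
      ∀ (N : Type v) [Group N] [Group.IsNilpotent N] (f : S →* N),
      ∃ c : Fin n → S, f a = f (List.ofFn fun l => c l * g l * (c l)⁻¹).prod := by
  have hfree : IsFreeGroup S := subgroupIsFreeOfIsFree S
  obtain ⟨c, hc⟩ := exists_conj hS hi hj
  let e : Fin n → S := fun l => if l = j then c else 1
  have hu : ((⁅g i, c * g j * c⁻¹⁆ : S) : F) ≠ 1 := by
    intro h
    apply hc
    apply commutatorElement_eq_one_iff_mul_comm.1
    exact Subtype.ext h
  obtain ⟨k, hk⟩ := not_dep_pow hu ((List.ofFn fun l => e l * g l * (e l)⁻¹).prod : S)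
    (fun l => (g l : F))
  have hu2 : ⁅g i, c * g j * c⁻¹⁆ ∈
      (⁅Subgroup.closure (Set.range fun l => e l * g l * (e l)⁻¹),
      Subgroup.closure (Set.range fun l => e l * g l * (e l)⁻¹)⁆ : Subgroup S) := by
    apply Subgroup.commutator_mem_commutator
    · apply Subgroup.subset_closure
      exact ⟨i, by simp [e, hij]⟩
    · apply Subgroup.subset_closure
      exact ⟨j, by simp [e]⟩
  refine ⟨(List.ofFn fun l => e l * g l * (e l)⁻¹).prod * ⁅g i, c * g j * c⁻¹⁆ ^ k, ?_,
    fun N _ _ f => ?_⟩
  · have h := hk k le_rfl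
    rw [← Subgroup.coe_pow, ← Subgroup.coe_mul] at h
    exact h
  · exact dep_nil_sub e g (Subgroup.pow_mem _ hu2 _) f

/-- the coset of the commutator subgroup contains elements which are not dependent -/
theorem exists_coset {F : Type} [Group F] [IsFreeGroup F] (S : Subgroup F)
    (hS : ¬ ∀ x y : S, x * y = y * x) {n : ℕ} (g : Fin n → S) :
    ∃ a : S, (List.ofFn g).prod⁻¹ * a ∈ commutator S ∧
      ¬ DependentOn (a : F) (fun l => (g l : F)) := by
  push Not at hS
  obtain ⟨x, y, hxy⟩ := hS
  have hu : ((⁅x, y⁆ : S) : F) ≠ 1 := by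
    intro h
    apply hxy
    apply commutatorElement_eq_one_iff_mul_comm.1
    exact Subtype.ext h
  obtain ⟨k, hk⟩ := not_dep_pow hu ((List.ofFn g).prod : S) (fun l => (g l : F))
  refine ⟨(List.ofFn g).prod * ⁅x, y⁆ ^ k, ?_, ?_⟩
  · rw [inv_mul_cancel_left]
    exact Subgroup.pow_mem _
      (Subgroup.commutator_mem_commutator (Subgroup.mem_top _) (Subgroup.mem_top _)) _
  · have h := hk k le_rfl
    rw [← Subgroup.coe_pow, ← Subgroup.coe_mul] at h
    exact h

/-- images in abelian groups see at most the coset -/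
theorem mem_of_dep_nil {S : Type} [Group S] {n : ℕ} {g : Fin n → S} {a : S}
    (h : ∀ (N : Type) [Group N] [Group.IsNilpotent N] (f : S →* N),
      DependentOn (f a) (fun l => f (g l))) : (List.ofFn g).prod⁻¹ * a ∈ commutator S := by
  have h1 := dep_comm (h (Abelianization S) Abelianization.of)
  rw [← Abelianization.ker_of, MonoidHom.mem_ker, map_mul, map_inv, h1, map_list_prod,
    List.map_ofFn]
  exact inv_mul_cancel _

/-- images of the free group `F` in finite abelian `p`-groups see at most the coset -/
theorem mem_of_dep_p {p : ℕ} (hp : p.Prime) {F : Type} [Group F] [IsFreeGroup F] (S : Subgroup F)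
    (hS : Function.Injective (LinearMap.rTensor (ZMod p)
        (AddMonoidHom.toIntLinearMap (MonoidHom.toAdditive (Abelianization.map S.subtype)))))
    {n : ℕ} {g : Fin n → S} {a : S}
    (h : ∀ (P : Type) [Group P] [Finite P], IsPGroup p P → ∀ f : F →* P,
      DependentOn (f a) (fun l => f (g l))) : (List.ofFn g).prod⁻¹ * a ∈ commutator S := by
  apply h1_inj hp S hS
  by_contra hcon
  obtain ⟨k, f, hf⟩ := exists_p_hom hp hcon
  have hfin : NeZero (p ^ k) := ⟨pow_ne_zero _ hp.ne_zero⟩
  have hfin2 : Finite (Multiplicative (ZMod (p ^ k))) :=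
    inferInstanceAs (Finite (ZMod (p ^ k)))
  have hP : IsPGroup p (Multiplicative (ZMod (p ^ k))) := by
    apply IsPGroup.of_card (n := k)
    exact Nat.card_zmod (p ^ k)
  have h1 := dep_comm (h _ hP f)
  apply hf
  have h2 : (((List.ofFn g).prod⁻¹ * a : S) : F) =
      (S.subtype (List.ofFn g).prod)⁻¹ * (a : F) := rfl
  rw [h2, map_mul, map_inv, h1, map_list_prod, map_list_prod, List.map_ofFn, List.map_ofFn]
  exact inv_mul_cancel _

end Pool.Agent.H408.ND
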