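import Pool.Agent.H408.ND.Main
import Pool.Agent.H408.ND.DepP

/-!
Products of conjugacy classes of free groups and their images in abelian-by-nilpotent groups.
-/

set_option autoImplicit false
open scoped TensorProduct

namespace Pool.Agent.H408.ND

open scoped commutatorElement

universe v

/-- elements of the coset of the commutator subgroup of the subgroup generated by conjugates of the
given elements are dependent in all images with an abelian term of the lower central series -/
theorem dep_lcs_sub {S : Type} [Group S] {n : ℕ} (e g : Fin n → S) {t : S}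
    (ht : t ∈ (⁅Subgroup.closure (Set.range fun l => e l * g l * (e l)⁻¹),
      Subgroup.closure (Set.range fun l => e l * g l * (e l)⁻¹)⁆ : Subgroup S))
    {N : Type v} [Group N] (k : ℕ)
    (hk : ∀ x ∈ Subgroup.lowerCentralSeries (⊤ : Subgroup N) k,
      ∀ y ∈ Subgroup.lowerCentralSeries (⊤ : Subgroup N) k, x * y = y * x) (f : S →* N) :
    ∃ c : Fin n → S, f ((List.ofFn fun l => e l * g l * (e l)⁻¹).prod * t) =
      f (List.ofFn fun l => c l * g l * (c l)⁻¹).prod := by
  set g' : Fin n → S := fun l => e l * g l * (e l)⁻¹ with hg'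
  set T : Subgroup S := Subgroup.closure (Set.range g') with hT
  have hmem : ∀ l, g' l ∈ T := fun l => Subgroup.subset_closure ⟨l, rfl⟩
  let g'' : Fin n → T := fun l => ⟨g' l, hmem l⟩
  have hgen : Subgroup.closure (Set.range g'') = ⊤ := by
    have h1 : (Subgroup.closure (Set.range g'')).map T.subtype = T := by
      rw [MonoidHom.map_closure, ← Set.range_comp]
      rfl
    apply Subgroup.map_injective T.subtype_injective
    rw [h1, ← MonoidHom.range_eq_map, Subgroup.range_subtype]
  have ht' : ∃ t' : T, t' ∈ commutator T ∧ (t' : S) = t := by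
    have h2 : (commutator T).map T.subtype = ⁅T, T⁆ := by
      rw [commutator_def, Subgroup.map_commutator, ← MonoidHom.range_eq_map,
        Subgroup.range_subtype]
    rw [← h2] at ht
    obtain ⟨t', h3, h4⟩ := ht
    exact ⟨t', h3, h4⟩
  obtain ⟨t', h3, h4⟩ := ht'
  obtain ⟨c, hc⟩ := dep_lcs g'' (by rw [hgen, top_sup_eq])
    (a := (List.ofFn g'').prod * t') (by rw [inv_mul_cancel_left]; exact h3) k hk
    (f.comp T.subtype)
  refine ⟨fun l => c l * e l, ?_⟩
  have h5 : T.subtype ((List.ofFn g'').prod * t') = (List.ofFn g').prod * t := by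
    rw [map_mul, map_list_prod, List.map_ofFn]
    congr 1
  have h6 : T.subtype (List.ofFn fun l => c l * g'' l * (c l)⁻¹).prod =
      (List.ofFn fun l => (c l * e l : S) * g l * (c l * e l : S)⁻¹).prod := by
    rw [dep_map]
    congr 2
    funext l
    simp only [g'', g', Subgroup.subtype_apply]
    group
  rw [MonoidHom.comp_apply, MonoidHom.comp_apply, h5, h6] at hc
  exact hc

/-- **Products of two nontrivial conjugacy classes of a nonabelian free group** and images in groups
with an abelian term of the lower central series -/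
theorem exists_sep_lcs {F : Type} [Group F] [IsFreeGroup F] (S : Subgroup F)
    (hS : ¬ ∀ x y : S, x * y = y * x) {n : ℕ}
    (g : Fin n → S) {i j : Fin n} (hij : i ≠ j) (hi : g i ≠ 1) (hj : g j ≠ 1) :
    ∃ a : S, ¬ DependentOn (a : F) (fun l => (g l : F)) ∧
      ∀ (N : Type v) [Group N] (k : ℕ),
        (∀ x ∈ Subgroup.lowerCentralSeries (⊤ : Subgroup N) k,
          ∀ y ∈ Subgroup.lowerCentralSeries (⊤ : Subgroup N) k, x * y = y * x) →
        ∀ (f : S →* N),
      ∃ c : Fin n → S, f a = f (List.ofFn fun l => c l * g l * (c l)⁻¹).prod := by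
  have hfree : IsFreeGroup S := subgroupIsFreeOfIsFree S
  obtain ⟨c, hc⟩ := exists_conj hS hi hj
  let e : Fin n → S := fun l => if l = j then c else 1
  have hu : ((⁅g i, c * g j * c⁻¹⁆ : S) : F) ≠ 1 := by
    intro h
    apply hc
    apply commutatorElement_eq_one_iff_mul_comm.1
    exact Subtype.ext h
  obtain ⟨k, hk⟩ := not_dep_pow hu ((List.ofFn fun l => e l * g l * (e l)⁻¹).prod : S)
    (fun l => (g l : F))
  have hu2 : ⁅g i, c * g j * c⁻¹⁆ ∈
      (⁅Subgroup.closure (Set.range fun l => e l * g l * (e l)⁻¹),
      Subgroup.closure (Set.range fun l => e l * g l * (e l)⁻¹)⁆ : Subgroup S) := by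
    apply Subgroup.commutator_mem_commutator
    · apply Subgroup.subset_closure
      exact ⟨i, by simp [e, hij]⟩
    · apply Subgroup.subset_closure
      exact ⟨j, by simp [e]⟩
  refine ⟨(List.ofFn fun l => e l * g l * (e l)⁻¹).prod * ⁅g i, c * g j * c⁻¹⁆ ^ k, ?_,
    fun N _ r hr f => ?_⟩
  · have h := hk k le_rfl
    rw [← Subgroup.coe_pow, ← Subgroup.coe_mul] at h
    exact h
  · exact dep_lcs_sub e g (Subgroup.pow_mem _ hu2 _) r hr f

end Pool.Agent.H408.ND
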