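import Mathlib

/-!
Products of conjugacy classes in nilpotent groups.
-/

set_option autoImplicit false

namespace Pool.Agent.H408.ND

open scoped commutatorElement

universe u

/-- `a` is a product of `G`-conjugates of `g 0, …, g (n - 1)` -/
def DependentOn {G : Type u} [Group G] {n : ℕ} (a : G) (g : Fin n → G) : Prop :=
  ∃ c : Fin n → G, a = (List.ofFn fun i => c i * g i * (c i)⁻¹).prod

variable {G : Type u} [Group G]

theorem dep_map {H : Type*} [Group H] (f : G →* H) {n : ℕ} {c g : Fin n → G} :
    f (List.ofFn fun i => c i * g i * (c i)⁻¹).prod =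
      (List.ofFn fun i => f (c i) * f (g i) * (f (c i))⁻¹).prod := by
  rw [map_list_prod, List.map_ofFn]
  congr 1
  congr 1
  funext i
  simp

/-- central factors can be collected -/
theorem prod_central {n : ℕ} (u v : Fin n → G) (hu : ∀ i, u i ∈ Subgroup.center G) :
    (List.ofFn fun i => u i * v i).prod = (List.ofFn u).prod * (List.ofFn v).prod := by
  induction n with
  | zero => simp
  | succ n ih =>
    rw [List.ofFn_succ, List.ofFn_succ, List.ofFn_succ, List.prod_cons, List.prod_cons,
      List.prod_cons, ih _ _ fun i => hu i.succ]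
    have h1 : (List.ofFn fun i : Fin n => u i.succ).prod ∈ Subgroup.center G := by
      apply Subgroup.list_prod_mem
      intro x hx
      obtain ⟨i, rfl⟩ := (List.mem_ofFn' _ _).1 hx
      exact hu _
    have h2 := (Subgroup.mem_center_iff.1 h1) (v 0)
    rw [mul_assoc (u 0), mul_assoc (u 0), ← mul_assoc (v 0), h2]
    simp only [mul_assoc]

theorem comm_mul_left {z z' g : G} (h : ⁅z', g⁆ ∈ Subgroup.center G) :
    ⁅z * z', g⁆ = ⁅z, g⁆ * ⁅z', g⁆ := by
  have h2 := (Subgroup.mem_center_iff.1 h)
  have e : ⁅z * z', g⁆ = z * ⁅z', g⁆ * (g * z⁻¹ * g⁻¹) := by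
    simp only [commutatorElement_def]
    group
  rw [e, h2 z, mul_assoc, ← h2]
  simp only [commutatorElement_def]
  group

theorem comm_mul_right {p q q' : G} (h : ⁅p, q'⁆ ∈ Subgroup.center G) :
    ⁅p, q * q'⁆ = ⁅p, q⁆ * ⁅p, q'⁆ := by
  have h2 := (Subgroup.mem_center_iff.1 h)
  have e : ⁅p, q * q'⁆ = ⁅p, q⁆ * (q * ⁅p, q'⁆ * q⁻¹) := by
    simp only [commutatorElement_def]
    group
  rw [e, h2 q]
  simp [mul_assoc]

/-- the elements `∏ ⁅z i, g i⁆` with `z i` in `L` -/
def Rep (L : Subgroup G) {n : ℕ} (g : Fin n → G) (x : G) : Prop :=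
  ∃ z : Fin n → G, (∀ i, z i ∈ L) ∧ x = (List.ofFn fun i => ⁅z i, g i⁆).prod

theorem rep_mul (L : Subgroup G) {n : ℕ} (g : Fin n → G)
    (hL : ∀ z ∈ L, ∀ q, ⁅z, q⁆ ∈ Subgroup.center G) {x y : G} (hx : Rep L g x) (hy : Rep L g y) :
    Rep L g (x * y) := by
  obtain ⟨z, hz, rfl⟩ := hx
  obtain ⟨w, hw, rfl⟩ := hy
  refine ⟨fun i => z i * w i, fun i => L.mul_mem (hz i) (hw i), ?_⟩
  rw [← prod_central _ _ fun i => hL _ (hz i) _]
  congr 2
  funext i
  exact (comm_mul_left (hL _ (hw i) _)).symm

theorem rep_one (L : Subgroup G) {n : ℕ} (g : Fin n → G) : Rep L g 1 :=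
  ⟨fun _ => 1, fun _ => L.one_mem, by simp [List.ofFn_const]⟩

theorem prod_single {n : ℕ} (i : Fin n) (x : G) :
    (List.ofFn fun j => if j = i then x else 1).prod = x := by
  induction n with
  | zero => exact i.elim0
  | succ n ih =>
    rw [List.ofFn_succ, List.prod_cons]
    refine Fin.cases ?_ (fun i => ?_) i
    · simp only [if_true]
      have : (List.ofFn fun j : Fin n => if j.succ = (0 : Fin (n + 1)) then x else (1 : G)) =
          List.ofFn fun _ : Fin n => (1 : G) := by
        congr 1
      rw [this]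
      simp [List.ofFn_const]
    · have h0 : ¬ (0 : Fin (n + 1)) = i.succ := (Fin.succ_ne_zero i).symm
      rw [if_neg h0, one_mul]
      simp only [Fin.succ_inj]
      exact ih i

theorem rep_gen (L : Subgroup G) {n : ℕ} (g : Fin n → G) (i : Fin n) {z : G} (hz : z ∈ L) :
    Rep L g ⁅z, g i⁆ := by
  refine ⟨fun j => if j = i then z else 1, fun j => ?_, ?_⟩
  · dsimp only
    split
    · exact hz
    · exact L.one_mem
  · have : (fun j => ⁅(if j = i then z else 1), g j⁆) = fun j => if j = i then ⁅z, g i⁆ else 1 := by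
      funext j
      split
      · next h => rw [h]
      · simp
    rw [this, prod_single]

theorem rep_comm (L : Subgroup G) {n : ℕ} (g : Fin n → G)
    (hL : ∀ z ∈ L, ∀ q, ⁅z, q⁆ ∈ Subgroup.center G) (hg : Subgroup.closure (Set.range g) = ⊤)
    {z : G} (hz : z ∈ L) (q : G) : Rep L g ⁅z, q⁆ := by
  have hq : q ∈ Subgroup.closure (Set.range g) := by rw [hg]; trivial
  revert z
  induction hq using Subgroup.closure_induction with
  | mem x hx =>
    intro z hz
    obtain ⟨i, rfl⟩ := hx
    exact rep_gen L g i hz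
  | one =>
    intro z hz
    simpa using rep_one L g
  | mul x y _ _ ihx ihy =>
    intro z hz
    rw [comm_mul_right (hL z hz y)]
    exact rep_mul L g hL (ihx hz) (ihy hz)
  | inv x _ ih =>
    intro z hz
    have h1 : ⁅z, x⁻¹⁆ = ⁅z⁻¹, x⁆ := by
      have h2 := comm_mul_left (z := z⁻¹) (z' := z) (g := x) (hL z hz x)
      have h3 := comm_mul_right (p := z) (q := x) (q' := x⁻¹) (hL z hz x⁻¹)
      rw [inv_mul_cancel, commutatorElement_one_left] at h2
      rw [mul_inv_cancel, commutatorElement_one_right] at h3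
      have h4 : ⁅z, x⁻¹⁆ = ⁅z, x⁆⁻¹ := eq_inv_of_mul_eq_one_right h3.symm
      have h5 : ⁅z⁻¹, x⁆ = ⁅z, x⁆⁻¹ := eq_inv_of_mul_eq_one_left h2.symm
      rw [h4, h5]
    rw [h1]
    exact ih (L.inv_mem hz)

theorem rep_closure (L : Subgroup G) {n : ℕ} (g : Fin n → G)
    (hL : ∀ z ∈ L, ∀ q, ⁅z, q⁆ ∈ Subgroup.center G) (hg : Subgroup.closure (Set.range g) = ⊤)
    {x : G} (hx : x ∈ ⁅L, (⊤ : Subgroup G)⁆) : Rep L g x := by
  rw [Subgroup.commutator_def] at hx
  induction hx using Subgroup.closure_induction with
  | mem x hx =>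
    obtain ⟨z, hz, q, -, rfl⟩ := hx
    exact rep_comm L g hL hg hz q
  | one => exact rep_one L g
  | mul x y _ _ ihx ihy => exact rep_mul L g hL ihx ihy
  | inv x hx ih =>
    obtain ⟨z, hz, rfl⟩ := ih
    have hc : ∀ i, ⁅z i, g i⁆ ∈ Subgroup.center G := fun i => hL _ (hz i) _
    refine ⟨fun i => (z i)⁻¹, fun i => L.inv_mem (hz i), ?_⟩
    apply inv_eq_of_mul_eq_one_right
    rw [← prod_central _ _ hc]
    have : (fun i => ⁅z i, g i⁆ * ⁅(z i)⁻¹, g i⁆) = fun _ : Fin n => (1 : G) := by
      funext i
      rw [← comm_mul_left (hL _ (L.inv_mem (hz i)) _), mul_inv_cancel,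
        commutatorElement_one_left]
    rw [this]
    simp [List.ofFn_const]

theorem map_comm_mem {H : Type*} [Group H] (f : G →* H) {x : G} (hx : x ∈ commutator G) :
    f x ∈ commutator H := by
  have h1 : (commutator G).map f ≤ commutator H := by
    rw [commutator_def, commutator_def, Subgroup.map_commutator]
    exact Subgroup.commutator_mono le_top le_top
  exact h1 (Subgroup.mem_map_of_mem f hx)

/-- the inductive statement -/
theorem nil_aux (m : ℕ) : ∀ (G : Type u) [Group G],
    Subgroup.lowerCentralSeries (⊤ : Subgroup G) m = ⊥ →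
    ∀ (n : ℕ) (g : Fin n → G), Subgroup.closure (Set.range g) = ⊤ →
    ∀ a : G, (List.ofFn g).prod⁻¹ * a ∈ commutator G → DependentOn a g := by
  induction m with
  | zero =>
    intro G _ h n g _ a _
    have h1 : ∀ x : G, x = 1 := by
      intro x
      have : x ∈ Subgroup.lowerCentralSeries (⊤ : Subgroup G) 0 := by
        rw [Subgroup.lowerCentralSeries_zero]; trivial
      rw [h] at this
      exact this
    exact ⟨fun _ => 1, by rw [h1 a]; exact (h1 _).symm⟩
  | succ m ih =>
    intro G _ h n g hg a ha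
    rcases m with _ | k
    · rw [zero_add, Subgroup.top_lowerCentralSeries_one] at h
      rw [h] at ha
      have h2 : (List.ofFn g).prod⁻¹ * a = 1 := ha
      refine ⟨fun _ => 1, ?_⟩
      simp only [one_mul, inv_one, mul_one]
      exact (inv_mul_eq_one.1 h2).symm
    · set K : Subgroup G := Subgroup.lowerCentralSeries (⊤ : Subgroup G) (k + 1) with hK
      set L : Subgroup G := Subgroup.lowerCentralSeries (⊤ : Subgroup G) k with hL
      have hKL : K = ⁅L, (⊤ : Subgroup G)⁆ := Subgroup.lowerCentralSeries_succ (⊤ : Subgroup G) k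
      have hKc : K ≤ Subgroup.center G := by
        have h3 : ⁅K, (⊤ : Subgroup G)⁆ = ⊥ := h
        rw [Subgroup.commutator_eq_bot_iff_le_centralizer] at h3
        intro x hx
        have := h3 hx
        rw [Subgroup.mem_centralizer_iff] at this
        rw [Subgroup.mem_center_iff]
        intro y
        exact this y (Subgroup.mem_top y)
      have hKn : K.Normal := by
        rw [hK]; infer_instance
      have hLc : ∀ z ∈ L, ∀ q, ⁅z, q⁆ ∈ Subgroup.center G := fun z hz q =>
        hKc (by rw [hKL]; exact Subgroup.commutator_mem_commutator hz (Subgroup.mem_top q))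
      have hQ : Subgroup.lowerCentralSeries (⊤ : Subgroup (G ⧸ K)) (k + 1) = ⊥ := by
        have h4 := Subgroup.map_lowerCentralSeries (⊤ : Subgroup G) (QuotientGroup.mk' K) (k + 1)
        rw [Subgroup.map_top_of_surjective _ (QuotientGroup.mk'_surjective K)] at h4
        rw [← h4, ← hK, QuotientGroup.map_mk'_self]
      have hgQ : Subgroup.closure (Set.range fun i => QuotientGroup.mk' K (g i)) = ⊤ := by
        have h5 : (Set.range fun i => QuotientGroup.mk' K (g i)) =
            QuotientGroup.mk' K '' Set.range g := by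
          rw [← Set.range_comp]; rfl
        rw [h5, ← MonoidHom.map_closure, hg,
          Subgroup.map_top_of_surjective _ (QuotientGroup.mk'_surjective K)]
      obtain ⟨c', hc'⟩ := ih (G ⧸ K) hQ n (fun i => QuotientGroup.mk' K (g i)) hgQ
        (QuotientGroup.mk' K a) (by
          have h6 := map_comm_mem (QuotientGroup.mk' K) ha
          rw [map_mul, map_inv, map_list_prod, List.map_ofFn] at h6
          exact h6)
      choose c hc using fun i => QuotientGroup.mk'_surjective K (c' i)
      have h7 : (List.ofFn fun i => c i * g i * (c i)⁻¹).prod⁻¹ * a ∈ K := by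
        rw [← QuotientGroup.eq_one_iff]
        change QuotientGroup.mk' K _ = 1
        rw [map_mul, map_inv, dep_map, hc']
        simp only [hc]
        exact inv_mul_cancel _
      obtain ⟨z, hz, hz2⟩ := rep_closure L g hLc hg (by rw [← hKL]; exact h7)
      refine ⟨fun i => c i * z i, ?_⟩
      have h8 : (fun i => c i * z i * g i * (c i * z i)⁻¹) =
          fun i => ⁅z i, g i⁆ * (c i * g i * (c i)⁻¹) := by
        funext i
        have h9 := Subgroup.mem_center_iff.1 (hLc (z i) (hz i) (g i)) (c i)
        have h10 : c i * z i * g i * (c i * z i)⁻¹ = (c i * ⁅z i, g i⁆) * g i * (c i)⁻¹ := by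
          simp only [commutatorElement_def]
          group
        rw [h10, h9]
        simp only [mul_assoc]
      rw [h8, prod_central _ _ fun i => hLc _ (hz i) _, ← hz2]
      have h11 := Subgroup.mem_center_iff.1 (hKc h7)
        (List.ofFn fun i => c i * g i * (c i)⁻¹).prod
      rw [← h11]
      group

/-- A product of conjugacy classes of elements which generate a nilpotent group is the full coset
of the commutator subgroup. -/
theorem nil_main [Group.IsNilpotent G] {n : ℕ} (g : Fin n → G)
    (hg : Subgroup.closure (Set.range g) = ⊤) (a : G) :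
    DependentOn a g ↔ (List.ofFn g).prod⁻¹ * a ∈ commutator G := by
  constructor
  · rintro ⟨c, rfl⟩
    rw [← Abelianization.ker_of, MonoidHom.mem_ker, map_mul, map_inv, dep_map, map_list_prod,
      List.map_ofFn]
    have : (fun i => Abelianization.of (c i) * Abelianization.of (g i) *
        (Abelianization.of (c i))⁻¹) = Abelianization.of ∘ g := by
      funext i
      simp [mul_comm]
    rw [this]
    exact inv_mul_cancel _
  · obtain ⟨m, hm⟩ := Subgroup.nilpotent_iff_lowerCentralSeries.1 (inferInstance : Group.IsNilpotent G)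
    exact nil_aux m G hm n g hg a

end Pool.Agent.H408.ND
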