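import Pool.Agent.H408.ND.Gen
import Pool.Graph.R_pool_sql_team_seeded_2aa45f1a.Q98.CommWidth

/-!
In a nonabelian free group no product of conjugacy classes is a full coset of the commutator
subgroup.
-/

set_option autoImplicit false

namespace Pool.Agent.H408.ND

open scoped commutatorElement
open Pool.Agent.Q98.CW

universe u v

theorem qm_one : qm 1 = 0 := by
  have := qm_inv 1
  rw [inv_one] at this
  omega

/-- the quasimorphism is bounded on products of conjugates -/
theorem qm_bdd {n : ℕ} (g c : Fin n → FreeGroup Bool) :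
    |qm (List.ofFn fun i => c i * g i * (c i)⁻¹).prod| ≤ ∑ i, (|qm (g i)| + 9) := by
  induction n with
  | zero => simp [qm_one]
  | succ n ih =>
    rw [List.ofFn_succ, List.prod_cons, Fin.sum_univ_succ]
    have h1 := ih (fun i => g i.succ) (fun i => c i.succ)
    have h2 := qm_mul (c 0) (g 0)
    have h3 := qm_mul (c 0 * g 0) (c 0)⁻¹
    have h4 := qm_mul (c 0 * g 0 * (c 0)⁻¹)
      (List.ofFn fun i : Fin n => c i.succ * g i.succ * (c i.succ)⁻¹).prod
    rw [qm_inv] at h3
    have h5 := le_abs_self (qm (g 0))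
    have h6 := neg_abs_le (qm (g 0))
    rw [abs_le] at h1 h2 h3 h4 ⊢
    constructor <;> linarith

/-- non-dependence of `∏ g i * ⁅x, y⁆ ^ k` for a large `k` -/
theorem exists_not_dep {S : Type u} [Group S] (π : S →* FreeGroup Bool) (x y : S)
    (hx : π x = FreeGroup.of true) (hy : π y = FreeGroup.of false) {n : ℕ} (g : Fin n → S) :
    ∃ k : ℕ, ∀ m : ℕ, k ≤ m → ¬ DependentOn ((List.ofFn g).prod * ⁅x, y⁆ ^ m) g := by
  refine ⟨(∑ i, (|qm (π (g i))| + 9) + |qm (π (List.ofFn g).prod)| + 4).toNat, ?_⟩
  rintro m hm ⟨c, hc⟩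
  have h1 := qm_bdd (fun i => π (g i)) (fun i => π (c i))
  have h2 : π ((List.ofFn g).prod * ⁅x, y⁆ ^ m) =
      π (List.ofFn g).prod * ⁅Pool.Agent.Q98.CW.a, Pool.Agent.Q98.CW.b⁆ ^ m := by
    rw [map_mul, map_pow, map_commutatorElement, hx, hy]
    rfl
  rw [← dep_map, ← hc, h2] at h1
  have h3 := qm_mul (π (List.ofFn g).prod)
    (⁅Pool.Agent.Q98.CW.a, Pool.Agent.Q98.CW.b⁆ ^ m)
  rw [qm_pow] at h3
  have h4 : ∑ i, (|qm (π (g i))| + 9) + |qm (π (List.ofFn g).prod)| + 4 ≤ (m : ℤ) :=
    Int.toNat_le.1 hm
  have h5 := le_abs_self (qm (π (List.ofFn g).prod))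
  have h6 := neg_abs_le (qm (π (List.ofFn g).prod))
  rw [abs_le] at h1 h3
  linarith [h1.1, h1.2, h3.1, h3.2]

/-- a nonabelian free group has a free quotient of rank two -/
theorem exists_proj {S : Type u} [Group S] [IsFreeGroup S] (hS : ¬ ∀ x y : S, x * y = y * x) :
    ∃ (π : S →* FreeGroup Bool) (φ : FreeGroup Bool →* S), π.comp φ = MonoidHom.id _ := by
  classical
  have h1 : ¬ Subsingleton (IsFreeGroup.Generators S) := by
    intro h
    apply hS
    intro x y
    have key : ∀ x y : FreeGroup (IsFreeGroup.Generators S), x * y = y * x := by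
      intro x y
      induction x using FreeGroup.induction_on generalizing y with
      | C1 => simp
      | of i =>
        induction y using FreeGroup.induction_on with
        | C1 => simp
        | of j => rw [Subsingleton.elim i j]
        | inv_of j _ =>
          rw [Subsingleton.elim i j]
          simp
        | mul z w hz hw => rw [← mul_assoc, hz, mul_assoc, hw, mul_assoc]
      | inv_of i hi =>
        have h2 := hi y
        change (FreeGroup.of i)⁻¹ * y = y * (FreeGroup.of i)⁻¹
        rw [inv_mul_eq_iff_eq_mul, ← mul_assoc]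
        have h3 : FreeGroup.of i * y = y * FreeGroup.of i := h2
        rw [h3, mul_inv_cancel_right]
      | mul z w hz hw => rw [mul_assoc, hw, ← mul_assoc, hz, mul_assoc]
    have := key (IsFreeGroup.toFreeGroup S x) (IsFreeGroup.toFreeGroup S y)
    rw [← map_mul, ← map_mul] at this
    exact (IsFreeGroup.toFreeGroup S).injective this
  rw [not_subsingleton_iff_nontrivial] at h1
  obtain ⟨i, j, hij⟩ := h1.exists_pair_ne
  let e := IsFreeGroup.toFreeGroup S
  let π₀ : FreeGroup (IsFreeGroup.Generators S) →* FreeGroup Bool :=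
    FreeGroup.lift fun k => if k = i then FreeGroup.of true else
      if k = j then FreeGroup.of false else 1
  refine ⟨π₀.comp e.toMonoidHom, FreeGroup.lift fun b => e.symm (FreeGroup.of (if b then i else j)),
    ?_⟩
  ext b
  cases b
  · simp [π₀, hij.symm]
  · simp [π₀]

end Pool.Agent.H408.ND
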